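import Pool.Agent.Helper16.OM.Core
import Pool.Agent.Helper29.MS.EinL2

/-!
OM-2. Oscillation at a zero on the boundary, with a zero of order `r` at the origin.
-/

set_option autoImplicit false

namespace Pool.Agent.Helper16.OM

open Complex Filter Topology MeasureTheory Set
open Pool.Agent.Helper13.Bsd Pool.Agent.Helper7.GW Pool.Agent.Helper58.BSD

variable {v : ℝ → ℝ} {G : ℂ → ℂ} {A a η : ℝ}

private theorem EinL2_k1_ii (a b : ℝ) : IntervalIntegrable k1 volume a b := by
  have hd : Continuous (dslope (fun u : ℝ => 1 - Real.exp (-u)) 0) := by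
    rw [continuous_iff_continuousAt]
    intro x
    by_cases hx : x = 0
    · rw [hx, continuousAt_dslope_same]
      fun_prop
    · rw [continuousAt_dslope_of_ne hx]
      fun_prop
  refine (hd.intervalIntegrable a b).congr_ae ?_
  have h0 : ∀ᵐ u : ℝ ∂(volume.restrict (uIoc a b)), u ≠ 0 :=
    ae_restrict_of_ae (by simp [ae_iff])
  filter_upwards [h0] with u hu
  rw [dslope_of_ne _ hu, slope_def_field]
  simp [k1]

private theorem EinL2_deriv {t : ℝ} (ht : 0 < t) :
    HasDerivAt (fun t => ein t - Real.log t) (-(Real.exp (-t) / t)) t := by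
  have h1 : HasDerivAt ein (k1 t) t := by
    refine intervalIntegral.integral_hasDerivAt_right (EinL2_k1_ii 0 t) ?_ ?_
    · exact (measurable_k1.stronglyMeasurable).stronglyMeasurableAtFilter
    · exact ContinuousAt.div (by fun_prop) (by fun_prop) ht.ne'
  have h2 := h1.sub (Real.hasDerivAt_log ht.ne')
  have h3 : k1 t - t⁻¹ = -(Real.exp (-t) / t) := by
    unfold k1
    field_simp
    ring
  rw [h3] at h2
  exact h2

theorem EinL2_bounds {t : ℝ} (ht : 1 ≤ t) :
    0 ≤ ein t - Real.log t - Real.eulerMascheroniConstant ∧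
      ein t - Real.log t - Real.eulerMascheroniConstant ≤ Real.exp (-t) := by
  have hanti : AntitoneOn (fun t => ein t - Real.log t) (Ici 1) := by
    refine antitoneOn_of_deriv_nonpos (convex_Ici 1) ?_ ?_ ?_
    · intro x hx
      have hx' : 0 < x := lt_of_lt_of_le one_pos hx
      exact (EinL2_deriv hx').continuousAt.continuousWithinAt
    · intro x hx
      rw [interior_Ici] at hx
      have hx' : 0 < x := one_pos.trans hx
      exact (EinL2_deriv hx').differentiableAt.differentiableWithinAt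
    · intro x hx
      rw [interior_Ici] at hx
      have hx' : 0 < x := one_pos.trans hx
      rw [(EinL2_deriv hx').deriv]
      have := div_pos (Real.exp_pos (-x)) hx'
      linarith
  have hder2 : ∀ x : ℝ, 0 < x → HasDerivAt (fun t => ein t - Real.log t - Real.exp (-t))
      (-(Real.exp (-x) / x) + Real.exp (-x)) x := by
    intro x hx
    have h1 : HasDerivAt (fun t : ℝ => Real.exp (-t)) (-Real.exp (-x)) x := by
      have := (hasDerivAt_neg x).exp
      simpa using this
    have h2 := (EinL2_deriv hx).sub h1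
    rw [sub_neg_eq_add] at h2
    exact h2
  have hmono : MonotoneOn (fun t => ein t - Real.log t - Real.exp (-t)) (Ici 1) := by
    refine monotoneOn_of_deriv_nonneg (convex_Ici 1) ?_ ?_ ?_
    · intro x hx
      have hx' : 0 < x := lt_of_lt_of_le one_pos hx
      exact (hder2 x hx').continuousAt.continuousWithinAt
    · intro x hx
      rw [interior_Ici] at hx
      have hx' : 0 < x := one_pos.trans hx
      exact (hder2 x hx').differentiableAt.differentiableWithinAt
    · intro x hx
      rw [interior_Ici] at hx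
      have hx1 : 1 < x := hx
      have hx' : 0 < x := one_pos.trans hx1
      rw [(hder2 x hx').deriv]
      have h1 : Real.exp (-x) / x ≤ Real.exp (-x) := by
        rw [div_le_iff₀ hx']
        nlinarith [Real.exp_pos (-x)]
      linarith
  have hlim2 : Tendsto (fun t => ein t - Real.log t - Real.exp (-t)) atTop
      (𝓝 Real.eulerMascheroniConstant) := by
    have h1 : Tendsto (fun t : ℝ => Real.exp (-t)) atTop (𝓝 0) := Real.tendsto_exp_neg_atTop_nhds_zero
    have := ein_log.sub h1
    rwa [sub_zero] at this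
  constructor
  · have h1 : Real.eulerMascheroniConstant ≤ ein t - Real.log t := by
      refine le_of_tendsto ein_log ?_
      filter_upwards [eventually_ge_atTop t] with s hs
      exact hanti ht (ht.trans hs) hs
    linarith
  · have h1 : ein t - Real.log t - Real.exp (-t) ≤ Real.eulerMascheroniConstant := by
      refine ge_of_tendsto hlim2 ?_
      filter_upwards [eventually_ge_atTop t] with s hs
      exact hmono ht (ht.trans hs) hs
    linarith


theorem line_order (hS : Setup v G A a η) (r : ℕ) (g : ℝ) (hg0 : 0 < g)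
    (hg : Tendsto (fun y : ℝ => ‖G (y : ℂ)‖ / y ^ r) (𝓝[>] 0) (𝓝 g))
    (hint : ∀ x, 0 < x → LapInt v x)
    (γ : ℝ) (hγ : γ ≠ 0) (m : ℕ) (CG : ℝ) (hCG : 0 < CG)
    (hord : ∀ᶠ δ : ℝ in 𝓝[>] 0, ‖G ((δ : ℂ) + γ * I)‖ ≤ CG * δ ^ m)
    (ε : ℝ) (hε : ε = 1 ∨ ε = -1)
    (κ : ℝ) (hκ0 : 0 ≤ κ) (hκ : κ * |γ| < m) (t0 : ℝ)
    (h : ∀ t, t0 < t → ε * (v t - r * Real.log t - (r * Real.eulerMascheroniConstant - Real.log g)) ≤ κ / t) :
    False := by
  obtain ⟨G1, hG1, hfac, hG10⟩ := factor_order hS r g hg0 hg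
  have hS0 := setup_reduce hS r G1 hG1 hfac
  have hη := hS.hη
  have h0 : (fun s => G1 s * (1 + s) ^ r) (0 : ℂ) ≠ 0 := by
    simp only [add_zero, one_pow, mul_one]
    rw [← norm_pos_iff, hG10]
    exact hg0
  have hkap : kap (fun s => G1 s * (1 + s) ^ r) = -Real.log g := by
    unfold kap
    simp only [add_zero, one_pow, mul_one]
    rw [hG10]
  have hint0 : ∀ x, 0 < x → LapInt (fun t => v t - r * ein t) x := fun x hx =>
    (hint x hx).sub ((lapInt_ein hx).const_mul _)
  have hid0 := identity_continue hS0 0 le_rfl hint0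
  have hγ0 : 0 < |γ| := abs_pos.mpr hγ
  have hmγ : κ < m / |γ| := by rw [lt_div_iff₀ hγ0]; exact hκ
  set κ' := (κ + m / |γ|) / 2 with hκ'
  have hκκ' : κ < κ' := by rw [hκ']; linarith
  have hκ'm : κ' * |γ| < m := by
    have : κ' < m / |γ| := by rw [hκ']; linarith
    rwa [lt_div_iff₀ hγ0] at this
  have hκ'0 : 0 ≤ κ' := by linarith
  have hord' : ∀ᶠ δ : ℝ in 𝓝[>] 0, ‖(fun s => G1 s * (1 + s) ^ r) ((δ : ℂ) + γ * I)‖
      ≤ (CG / |γ| ^ r * (2 + |γ|) ^ r) * δ ^ m := by
    have hpos : ∀ᶠ δ : ℝ in 𝓝[>] 0, (0 : ℝ) < δ := self_mem_nhdsWithin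
    have hlt1 : ∀ᶠ δ : ℝ in 𝓝[>] 0, δ < 1 :=
      (gt_mem_nhds one_pos : ∀ᶠ x : ℝ in 𝓝 0, x < 1).filter_mono nhdsWithin_le_nhds
    filter_upwards [hord, hpos, hlt1] with δ h1 h2 h3
    set w : ℂ := (δ : ℂ) + γ * I with hw
    have hwre : w.re = δ := by rw [hw]; simp
    have hwim : w.im = γ := by rw [hw]; simp
    have hwn : |γ| ≤ ‖w‖ := by rw [← hwim]; exact abs_im_le_norm w
    have h4 := hfac w (by rw [hwre]; linarith)
    have hwpos : 0 < ‖w‖ := hγ0.trans_le hwn
    have h5 : ‖G1 w‖ ≤ CG / |γ| ^ r * δ ^ m := by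
      have e1 : ‖w‖ ^ r * ‖G1 w‖ ≤ CG * δ ^ m := by
        rw [← norm_pow, ← norm_mul, ← h4]
        exact h1
      have e2 : |γ| ^ r * ‖G1 w‖ ≤ CG * δ ^ m := by
        refine le_trans ?_ e1
        gcongr
      rw [div_mul_eq_mul_div, le_div_iff₀ (by positivity), mul_comm]
      exact e2
    have h6 : ‖(1 + w) ^ r‖ ≤ (2 + |γ|) ^ r := by
      rw [norm_pow]
      apply pow_le_pow_left₀ (norm_nonneg _)
      have e1 : ‖w‖ ≤ δ + |γ| := by
        rw [hw]
        refine (norm_add_le _ _).trans ?_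
        rw [norm_real, norm_mul, norm_real, norm_I, mul_one, Real.norm_eq_abs, Real.norm_eq_abs, abs_of_pos h2]
      calc ‖1 + w‖ ≤ ‖(1 : ℂ)‖ + ‖w‖ := norm_add_le _ _
        _ ≤ 1 + (δ + |γ|) := by rw [norm_one]; linarith
        _ ≤ 2 + |γ| := by linarith
    show ‖G1 w * (1 + w) ^ r‖ ≤ _
    rw [norm_mul]
    calc ‖G1 w‖ * ‖(1 + w) ^ r‖ ≤ (CG / |γ| ^ r * δ ^ m) * (2 + |γ|) ^ r :=
          mul_le_mul h5 h6 (norm_nonneg _) (by positivity)
      _ = _ := by ring
  -- the comparison of the two functions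
  have hlim : Tendsto (fun t : ℝ => κ' * (1 - Real.exp (-t)) - r * (t * Real.exp (-t))) atTop
      (𝓝 (κ' * (1 - 0) - r * 0)) := by
    have e1 : Tendsto (fun t : ℝ => Real.exp (-t)) atTop (𝓝 0) :=
      Real.tendsto_exp_atBot.comp tendsto_neg_atTop_atBot
    have e2 : Tendsto (fun t : ℝ => t * Real.exp (-t)) atTop (𝓝 0) := by
      have := Real.tendsto_pow_mul_exp_neg_atTop_nhds_zero 1
      simpa using this
    exact ((e1.const_sub 1).const_mul κ').sub (e2.const_mul _)
  have hev : ∀ᶠ t : ℝ in atTop, κ < κ' * (1 - Real.exp (-t)) - r * (t * Real.exp (-t)) :=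
    hlim.eventually (lt_mem_nhds (by linarith))
  obtain ⟨t2, ht2⟩ := eventually_atTop.mp hev
  refine line_core hS0 h0 hint0 hid0 γ hγ m (CG / |γ| ^ r * (2 + |γ|) ^ r) (by positivity) hord' ε hε κ'
    hκ'0 hκ'm (max t0 (max t2 1)) ?_
  intro t ht
  have h1 : t0 < t := (le_max_left _ _).trans_lt ht
  have h2 : t2 < t := ((le_max_left _ _).trans (le_max_right _ _)).trans_lt ht
  have h3 : 1 < t := ((le_max_right _ _).trans (le_max_right _ _)).trans_lt ht
  have ht0 : 0 < t := by linarith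
  have h4 := ht2 t h2.le
  have h5 := h t h1
  obtain ⟨h6, h7⟩ := EinL2_bounds h3.le
  rw [hkap]
  have e : ε * (v t - r * ein t - -Real.log g) =
      ε * (v t - r * Real.log t - (r * Real.eulerMascheroniConstant - Real.log g)) -
        ε * (r * (ein t - Real.log t - Real.eulerMascheroniConstant)) := by ring
  have hr0 : (0 : ℝ) ≤ r := Nat.cast_nonneg r
  have h8 : -(ε * (r * (ein t - Real.log t - Real.eulerMascheroniConstant))) ≤ r * Real.exp (-t) := by
    have e1 : r * (ein t - Real.log t - Real.eulerMascheroniConstant) ≤ r * Real.exp (-t) :=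
      mul_le_mul_of_nonneg_left h7 hr0
    have e2 : 0 ≤ r * (ein t - Real.log t - Real.eulerMascheroniConstant) := mul_nonneg hr0 h6
    rcases hε with h' | h' <;> rw [h'] <;> linarith
  have h9 : κ' * k1 t = (κ' * (1 - Real.exp (-t))) / t := by
    rw [k1]; ring
  show ε * (v t - r * ein t - -Real.log g) ≤ κ' * k1 t
  rw [e, h9]
  have h10 : κ / t + r * Real.exp (-t) ≤ (κ' * (1 - Real.exp (-t))) / t := by
    rw [le_div_iff₀ ht0, add_mul, div_mul_cancel₀ _ ht0.ne']
    nlinarith
  linarith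

end Pool.Agent.Helper16.OM
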