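import Pool.Agent.Helper16.OM.PD
import Pool.Agent.Helper46.OM.L2
import Pool.Agent.Helper56.OM.L1

/-!
OM-7. If `ε (v - κ) ≤ K k1` for large `t`, the number of zeros `i γ ≠ 0` (with multiplicity) of `G` with `|γ| ≤ R` is
at most `2 R K`.
-/

set_option autoImplicit false

namespace Pool.Agent.Helper16.OM

open Complex Filter Topology MeasureTheory Set
open Pool.Agent.Helper13.Bsd Pool.Agent.Helper7.GW Pool.Agent.Helper58.BSD Pool.Agent.Helper29.MS

variable {v : ℝ → ℝ} {G : ℂ → ℂ} {A a η : ℝ}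

/-- local factorisation along the line -/
def Fac (G : ℂ → ℂ) (mm : ℝ → ℕ) : Prop :=
  ∀ μ : ℝ, μ ≠ 0 → ∃ g : ℂ → ℂ, AnalyticAt ℂ g (μ * I) ∧ g (μ * I) ≠ 0 ∧
      ∀ᶠ w in 𝓝 (μ * I : ℂ), G w = (w - μ * I) ^ (mm μ) * g w

theorem Fac.zero {mm : ℝ → ℕ} (h : Fac G mm) {μ : ℝ} (hμ : μ ≠ 0) (hm : mm μ ≠ 0) : G (μ * I) = 0 := by
  obtain ⟨g, _, _, hg⟩ := h μ hμ
  have := hg.self_of_nhds
  rw [this, sub_self, zero_pow hm, zero_mul]

theorem Fac.ev {mm : ℝ → ℕ} (h : Fac G mm) {μ : ℝ} (hμ : μ ≠ 0) :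
    ∀ᶠ y : ℝ in 𝓝[≠] μ, G (y * I) ≠ 0 := by
  obtain ⟨g, hga, hg0, hg⟩ := h μ hμ
  have h1 : Tendsto (fun y : ℝ => (y * I : ℂ)) (𝓝 μ) (𝓝 (μ * I)) := by
    have : Continuous (fun y : ℝ => (y * I : ℂ)) := by fun_prop
    exact this.tendsto μ
  have h2 := h1.eventually hg
  have h3 := h1.eventually (hga.continuousAt.eventually_ne hg0)
  have h4 : ∀ᶠ y : ℝ in 𝓝[≠] μ, y ≠ μ := self_mem_nhdsWithin
  filter_upwards [h2.filter_mono nhdsWithin_le_nhds, h3.filter_mono nhdsWithin_le_nhds, h4] with y h5 h6 h7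
  rw [h5]
  refine mul_ne_zero (pow_ne_zero _ ?_) h6
  rw [← sub_mul]
  refine mul_ne_zero ?_ I_ne_zero
  rw [sub_ne_zero]
  exact_mod_cast h7

theorem Fac.fin {mm : ℝ → ℕ} (h : Fac G mm) (hGc : ContinuousAt G 0) (hG0 : G 0 ≠ 0) (R : ℝ) :
    {μ : ℝ | μ ∈ Icc (-R) R ∧ G (μ * I) = 0}.Finite := by
  by_contra hinf
  have hinf : {μ : ℝ | μ ∈ Icc (-R) R ∧ G (μ * I) = 0}.Infinite := hinf
  obtain ⟨x, -, hx⟩ := hinf.exists_accPt_of_subset_isCompact (isCompact_Icc (a := -R) (b := R))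
    (fun μ hμ => hμ.1)
  have hfr : ∃ᶠ y in 𝓝[≠] x, y ∈ {μ : ℝ | μ ∈ Icc (-R) R ∧ G (μ * I) = 0} :=
    accPt_iff_frequently_nhdsNE.mp hx
  refine hfr ?_
  by_cases hx0 : x = 0
  · subst hx0
    have h1 : Tendsto (fun y : ℝ => (y * I : ℂ)) (𝓝 0) (𝓝 0) := by
      have h1 : Continuous (fun y : ℝ => (y * I : ℂ)) := by fun_prop
      have h2 := h1.tendsto 0
      simpa using h2
    have h2 := h1.eventually (hGc.eventually_ne hG0)
    filter_upwards [h2.filter_mono nhdsWithin_le_nhds] with y hy h3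
    exact hy h3.2
  · filter_upwards [h.ev hx0] with y hy h3
    exact hy h3.2

theorem count_core (hS : Setup v G A a η) (hGc : ContinuousAt G 0) (hG0 : G 0 ≠ 0)
    (hint : ∀ x, 0 < x → LapInt v x)
    (hid : ∀ w : ℂ, 0 < w.re → G w = cexp (-(w * Lap v w))) (mm : ℝ → ℕ) (hmm : Fac G mm)
    (ε : ℝ) (hε : ε = 1 ∨ ε = -1) (K : ℝ) (hK0 : 0 ≤ K) (t0 : ℝ)
    (h : ∀ t, t0 < t → ε * (v t - kap G) ≤ K * k1 t) (R : ℝ) (hR : 0 < R) (Z : Finset ℝ)
    (hZ : ∀ γ ∈ Z, γ ≠ 0 ∧ |γ| ≤ R) : (∑ γ ∈ Z, (mm γ : ℝ)) ≤ 2 * R * K := by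
  classical
  set τ : ℝ := ε * (Real.pi / (2 * R)) with hτ
  set φ : ℝ → ℝ := fun μ => max 0 (2 * R - |μ|) * (cexp ((μ * τ : ℝ) * I) * ell K ε mm μ).re with hφ
  have hpos : ∀ B : Finset ℝ, 0 ≤ ∑ x ∈ B, ∑ y ∈ B, φ (x - y) := by
    intro B
    exact tri_pd (2 * R) (by positivity) B
      (fun x y => (cexp (((x - y) * τ : ℝ) * I) * ell K ε mm (x - y)).re)
      (fun B' _ => pd_core hS hG0 hint hid mm hmm ε hε K hK0 t0 h B' τ)
  have hφ0 : φ 0 = 2 * R * K := by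
    simp only [hφ]
    rw [abs_zero, sub_zero, max_eq_right (by positivity), ell, if_pos rfl, zero_mul, ofReal_zero, zero_mul,
      exp_zero, one_mul, ofReal_re]
  have hε2 : ε * ε = 1 := by
    rcases hε with h' | h' <;> rw [h'] <;> norm_num
  have hφμ : ∀ μ : ℝ, μ ≠ 0 → φ μ = -(max 0 (2 * R - |μ|) * (mm μ * (Real.sin (Real.pi / (2 * R) * μ) / μ))) := by
    intro μ hμ
    simp only [hφ]
    rw [ell, if_neg hμ]
    have e1 : cexp ((μ * τ : ℝ) * I) * (ε * mm μ * I / μ) = ((ε * mm μ / μ : ℝ) : ℂ) * (cexp ((μ * τ : ℝ) * I) * I) := by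
      push_cast
      ring
    rw [e1, re_ofReal_mul, mul_I_re, exp_ofReal_mul_I_im]
    have e2 : Real.sin (μ * τ) = ε * Real.sin (Real.pi / (2 * R) * μ) := by
      have e3 : μ * τ = ε * (Real.pi / (2 * R) * μ) := by rw [hτ]; ring
      rw [e3]
      rcases hε with h' | h' <;> rw [h']
      · rw [one_mul, one_mul]
      · rw [neg_one_mul, neg_one_mul, Real.sin_neg]
    rw [e2]
    have : ε * ↑(mm μ) / μ * -(ε * Real.sin (Real.pi / (2 * R) * μ)) = -((ε * ε) * (mm μ * (Real.sin (Real.pi / (2 * R) * μ) / μ))) := by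
      ring
    rw [this, hε2]
    ring
  -- lower bounds of the quotient
  have hpi := Real.pi_pos
  have hnn : ∀ μ : ℝ, μ ≠ 0 → |μ| ≤ 2 * R → 0 ≤ Real.sin (Real.pi / (2 * R) * μ) / μ := by
    have key : ∀ μ : ℝ, 0 < μ → μ ≤ 2 * R → 0 ≤ Real.sin (Real.pi / (2 * R) * μ) / μ := by
      intro μ hμ hle
      refine div_nonneg (Real.sin_nonneg_of_nonneg_of_le_pi (by positivity) ?_) hμ.le
      rw [div_mul_eq_mul_div, div_le_iff₀ (by positivity)]
      exact mul_le_mul_of_nonneg_left hle hpi.le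
    intro μ hμ hle
    rcases lt_or_gt_of_ne hμ with h1 | h1
    · have h2 := key (-μ) (by linarith) (by rw [abs_of_neg h1] at hle; exact hle)
      rw [mul_neg, Real.sin_neg, neg_div_neg_eq] at h2
      exact h2
    · exact key μ h1 (by rw [abs_of_pos h1] at hle; exact hle)
  have hsin : ∀ μ : ℝ, μ ≠ 0 → |μ| ≤ R → 1 / R ≤ Real.sin (Real.pi / (2 * R) * μ) / μ := by
    have key : ∀ μ : ℝ, 0 < μ → μ ≤ R → 1 / R ≤ Real.sin (Real.pi / (2 * R) * μ) / μ := by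
      intro μ hμ hle
      have h1 : Real.pi / (2 * R) * μ ≤ Real.pi / 2 := by
        rw [div_mul_eq_mul_div, div_le_div_iff₀ (by positivity) (by positivity)]
        nlinarith
      have h2 : 2 / Real.pi * (Real.pi / (2 * R) * μ) ≤ Real.sin (Real.pi / (2 * R) * μ) :=
        Real.mul_le_sin (by positivity) h1
      rw [le_div_iff₀ hμ]
      refine le_trans (le_of_eq ?_) h2
      field_simp
    intro μ hμ hle
    rcases lt_or_gt_of_ne hμ with h1 | h1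
    · have h2 := key (-μ) (by linarith) (by rw [abs_of_neg h1] at hle; exact hle)
      rw [mul_neg, Real.sin_neg, neg_div_neg_eq] at h2
      exact h2
    · exact key μ h1 (by rw [abs_of_pos h1] at hle; exact hle)
  have hle : ∀ μ : ℝ, μ ≠ 0 → φ μ ≤ 0 := by
    intro μ hμ
    rw [hφμ μ hμ]
    by_cases h1 : |μ| ≤ 2 * R
    · have h4 := hnn μ hμ h1
      have h5 : 0 ≤ max 0 (2 * R - |μ|) := le_max_left _ _
      have h6 : (0 : ℝ) ≤ mm μ := Nat.cast_nonneg _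
      have := mul_nonneg h5 (mul_nonneg h6 h4)
      linarith
    · rw [max_eq_left (by push Not at h1; linarith)]
      simp
  have hφZ : ∀ γ ∈ Z, φ γ ≤ -(mm γ : ℝ) := by
    intro γ hγ
    obtain ⟨h1, h2⟩ := hZ γ hγ
    rw [hφμ γ h1, max_eq_right (by linarith)]
    have h4 := hsin γ h1 h2
    have h5 : (0 : ℝ) ≤ mm γ := Nat.cast_nonneg _
    rw [neg_le_neg_iff]
    calc (mm γ : ℝ) = R * (mm γ * (1 / R)) := by field_simp
      _ ≤ (2 * R - |γ|) * (mm γ * (Real.sin (Real.pi / (2 * R) * γ) / γ)) := by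
          apply mul_le_mul (by linarith) (mul_le_mul_of_nonneg_left h4 h5) (by positivity) (by linarith)
  -- the finite support
  have hfin := hmm.fin hGc hG0 (2 * R)
  set S : Finset ℝ := insert 0 (hfin.toFinset ∪ Z) with hSdef
  have hsupp : ∀ μ, μ ∉ S → φ μ = 0 := by
    intro μ hμ
    rw [hSdef, Finset.mem_insert, Finset.mem_union, not_or, not_or] at hμ
    obtain ⟨h1, h2, -⟩ := hμ
    rw [hφμ μ h1]
    by_cases h3 : |μ| ≤ 2 * R
    · have h4 : mm μ = 0 := by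
        by_contra h5
        apply h2
        rw [Finite.mem_toFinset]
        exact ⟨abs_le.mp h3, hmm.zero h1 h5⟩
      rw [h4]
      simp
    · rw [max_eq_left (by push Not at h3; linarith)]
      simp
  have hsum := sum_nonneg_of_pd S φ hsupp hpos
  have h0Z : (0 : ℝ) ∉ Z := fun h0 => (hZ 0 h0).1 rfl
  have hsub : insert 0 Z ⊆ S := by
    rw [hSdef]
    exact Finset.insert_subset_insert _ Finset.subset_union_right
  have h1 : ∑ μ ∈ S, φ μ ≤ ∑ μ ∈ insert 0 Z, φ μ := by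
    rw [← Finset.sum_sdiff hsub]
    have h2 : ∑ x ∈ S \ insert 0 Z, φ x ≤ 0 := by
      refine Finset.sum_nonpos fun μ hμ => hle μ ?_
      have h3 := (Finset.mem_sdiff.mp hμ).2
      rintro rfl
      exact h3 (Finset.mem_insert_self _ _)
    linarith
  rw [Finset.sum_insert h0Z, hφ0] at h1
  have h2 : ∑ γ ∈ Z, φ γ ≤ ∑ γ ∈ Z, -(mm γ : ℝ) := Finset.sum_le_sum hφZ
  rw [Finset.sum_neg_distrib] at h2
  linarith

end Pool.Agent.Helper16.OM
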