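import Pool.Agent.Helper29.MS.HDef
import Pool.Agent.Helper29.MS.EeRate

/-!
OM-3. The second order term `T(x) = ∑_{√x ≤ p < x} (a_p² - 2 p) / (2 p²)` of the logarithm of the product;
`ee t + T (e^t)` tends to `E0` exponentially fast.
-/

set_option autoImplicit false

namespace Pool.Agent.Helper16.OM

open Complex Filter Topology MeasureTheory Set
open Pool.Agent.Helper13.Bsd Pool.Agent.Helper7.GW Pool.Agent.Helper58.BSD Pool.Agent.Helper29.MS

variable {N : ℕ → ℕ} {bad : ℕ → Prop} [DecidablePred bad]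

/-- `∑_{√x ≤ p < x, p good} (a_p² - 2 p) / (2 p²)` -/
noncomputable def TTb (N : ℕ → ℕ) (bad : ℕ → Prop) [DecidablePred bad] (x : ℝ) : ℝ :=
  ∑ p ∈ (Finset.range ⌈x⌉₊).filter (fun p : ℕ => p.Prime ∧ ¬ bad p ∧ x ≤ (p : ℝ) ^ 2),
    (((p : ℝ) + 1 - N p) ^ 2 - 2 * p) / (2 * (p : ℝ) ^ 2)

private theorem er_psum_eq (c : ℕ → ℝ) (n : ℕ) :
    psum c n = ∑ p ∈ Finset.range n, if p.Prime then c p else 0 := by
  rw [psum, Finset.sum_filter]

private theorem er_psum_sub (c : ℕ → ℝ) {n m : ℕ} (h : n ≤ m) :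
    psum c m - psum c n = ∑ p ∈ (Finset.Ico n m).filter Nat.Prime, c p := by
  rw [er_psum_eq, er_psum_eq, Finset.sum_filter, Finset.sum_Ico_eq_sub _ h]

private theorem er_psum_add (c d : ℕ → ℝ) (n : ℕ) :
    psum (fun p => c p + d p) n = psum c n + psum d n := by
  rw [psum, psum, psum, Finset.sum_add_distrib]

private theorem er_psum_tendsto (c : ℕ → ℝ) (hc : Summable fun p : Nat.Primes => c p) :
    Tendsto (fun n => psum c n) atTop (𝓝 (∑' p : Nat.Primes, c p)) := by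
  have h1 : HasSum (fun p : Nat.Primes => c p) (∑' p : Nat.Primes, c p) := hc.hasSum
  have h2 : HasSum (({p : ℕ | p.Prime} : Set ℕ).indicator c) (∑' p : Nat.Primes, c p) :=
    (hasSum_subtype_iff_indicator (s := ({p : ℕ | p.Prime} : Set ℕ))).1 h1
  have h3 := h2.tendsto_sum_nat
  refine h3.congr fun n => ?_
  rw [er_psum_eq]
  refine Finset.sum_congr rfl fun p _ => ?_
  by_cases hp : p.Prime
  · rw [if_pos hp, Set.indicator_of_mem (show p ∈ ({p : ℕ | p.Prime} : Set ℕ) from hp)]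
  · rw [if_neg hp, Set.indicator_of_notMem (show p ∉ ({p : ℕ | p.Prime} : Set ℕ) from hp)]

private theorem er_psum_nonneg_le (c : ℕ → ℝ) (h0 : ∀ p, 0 ≤ c p)
    (hc : Summable fun p : Nat.Primes => c p) (n : ℕ) : psum c n ≤ ∑' p : Nat.Primes, c p := by
  have hm : Monotone fun n => psum c n := by
    intro a b hab
    have h1 := er_psum_sub c hab
    have h2 : 0 ≤ ∑ p ∈ (Finset.Ico a b).filter Nat.Prime, c p :=
      Finset.sum_nonneg fun p _ => h0 p
    show psum c a ≤ psum c b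
    linarith
  exact hm.ge_of_tendsto (er_psum_tendsto c hc) n

private theorem er_summable_c12 (hN : NHyp N) :
    Summable fun p : Nat.Primes => |c1 N bad p + c2 N bad p| := by
  refine Summable.of_nonneg_of_le (fun _ => abs_nonneg _)
    (fun p => c12_le (bad := bad) hN (p : ℕ) p.2) ?_
  exact (summable_primes_rpow (x := 147 / 100) (by norm_num)).mul_left _

private theorem er_ceil_mono {a b : ℝ} (h : a ≤ b) : ⌈Real.exp a⌉₊ ≤ ⌈Real.exp b⌉₊ :=
  Nat.ceil_mono (Real.exp_le_exp.2 h)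

private theorem er_ee_eq (t : ℝ) : ee N bad t =
    psum (fun p => c1 N bad p + c2 N bad p) ⌈Real.exp t⌉₊ -
      (psum (c2 N bad) ⌈Real.exp t⌉₊ - psum (c2 N bad) ⌈Real.exp (t / 2)⌉₊) := by
  rw [er_psum_add, ee]
  ring

private theorem er_TTb_eq {t : ℝ} (ht : 0 ≤ t)
    (hb : ∀ p : ℕ, p.Prime → ⌈Real.exp (t / 2)⌉₊ ≤ p → ¬ bad p ∧ 1024 ≤ p) :
    TTb N bad (Real.exp t) = psum (c2 N bad) ⌈Real.exp t⌉₊ - psum (c2 N bad) ⌈Real.exp (t / 2)⌉₊ := by
  have hle : ⌈Real.exp (t / 2)⌉₊ ≤ ⌈Real.exp t⌉₊ := er_ceil_mono (by linarith)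
  rw [er_psum_sub _ hle, TTb]
  have hset : (Finset.range ⌈Real.exp t⌉₊).filter
      (fun p : ℕ => p.Prime ∧ ¬ bad p ∧ Real.exp t ≤ (p : ℝ) ^ 2) =
      (Finset.Ico ⌈Real.exp (t / 2)⌉₊ ⌈Real.exp t⌉₊).filter Nat.Prime := by
    ext p
    have hiff : Real.exp t ≤ (p : ℝ) ^ 2 ↔ ⌈Real.exp (t / 2)⌉₊ ≤ p := by
      rw [Nat.ceil_le]
      have e : Real.exp t = Real.exp (t / 2) ^ 2 := by
        rw [← Real.exp_nat_mul]; congr 1; push_cast; ring
      rw [e]
      exact pow_le_pow_iff_left₀ (Real.exp_pos _).le (Nat.cast_nonneg _) (by norm_num)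
    simp only [Finset.mem_filter, Finset.mem_range, Finset.mem_Ico, hiff]
    constructor
    · rintro ⟨h1, h2, _, h4⟩
      exact ⟨⟨h4, h1⟩, h2⟩
    · rintro ⟨⟨h4, h1⟩, h2⟩
      exact ⟨h1, h2, (hb p h2 h4).1, h4⟩
  rw [hset]
  refine Finset.sum_congr rfl fun p hp => ?_
  rw [Finset.mem_filter, Finset.mem_Ico] at hp
  obtain ⟨h1, h2⟩ := hb p hp.2 hp.1.1
  have h3 : c2 N bad p = alp N p ^ 2 / 2 - (p : ℝ)⁻¹ := by
    rw [c2, if_neg]
    rintro (h | h)
    · exact h1 h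
    · omega
  have hp0 : (p : ℝ) ≠ 0 := by
    have := hp.2.pos
    positivity
  rw [h3, alp]
  field_simp

private theorem er_tail (hN : NHyp N) : ∃ K : ℝ, 0 ≤ K ∧ ∀ n : ℕ, 1 ≤ n →
    |psum (fun p => c1 N bad p + c2 N bad p) n - E0 N bad| ≤ K * (n : ℝ) ^ (-(47 / 200) : ℝ) := by
  have hs := summable_primes_rpow (x := 247 / 200) (by norm_num)
  obtain ⟨S, hS⟩ : ∃ S : ℝ, S = ∑' p : Nat.Primes, ((p : ℕ) : ℝ) ^ (-(247 / 200) : ℝ) := ⟨_, rfl⟩
  have hS0 : 0 ≤ S := by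
    rw [hS]
    exact tsum_nonneg fun p => by positivity
  refine ⟨2048 * 1024 ^ 2 * S, by positivity, fun n hn => ?_⟩
  have hsum : Summable fun p : Nat.Primes => c1 N bad p + c2 N bad p := (er_summable_c12 hN).of_abs
  have hlim := er_psum_tendsto (fun p => c1 N bad p + c2 N bad p) hsum
  have hlim2 : Tendsto (fun m => |psum (fun p => c1 N bad p + c2 N bad p) n -
      psum (fun p => c1 N bad p + c2 N bad p) m|) atTop
      (𝓝 |psum (fun p => c1 N bad p + c2 N bad p) n - E0 N bad|) :=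
    (tendsto_const_nhds.sub hlim).abs
  refine le_of_tendsto hlim2 ?_
  filter_upwards [eventually_ge_atTop n] with m hm
  rw [abs_sub_comm, er_psum_sub _ hm]
  refine (Finset.abs_sum_le_sum_abs _ _).trans ?_
  have hn0 : (0 : ℝ) < n := by exact_mod_cast hn
  have h1 : ∀ p ∈ (Finset.Ico n m).filter Nat.Prime, |c1 N bad p + c2 N bad p| ≤
      2048 * 1024 ^ 2 * (n : ℝ) ^ (-(47 / 200) : ℝ) * (p : ℝ) ^ (-(247 / 200) : ℝ) := by
    intro p hp
    rw [Finset.mem_filter, Finset.mem_Ico] at hp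
    have hp0 : (0 : ℝ) < p := by exact_mod_cast hp.2.pos
    refine (c12_le (bad := bad) hN p hp.2).trans ?_
    have e1 : (p : ℝ) ^ (-(147 / 100) : ℝ) = (p : ℝ) ^ (-(47 / 200) : ℝ) * (p : ℝ) ^ (-(247 / 200) : ℝ) := by
      rw [← Real.rpow_add hp0]
      norm_num
    have e2 : (p : ℝ) ^ (-(47 / 200) : ℝ) ≤ (n : ℝ) ^ (-(47 / 200) : ℝ) := by
      refine Real.rpow_le_rpow_of_nonpos hn0 ?_ (by norm_num)
      exact_mod_cast hp.1.1
    rw [e1, mul_assoc (2048 * 1024 ^ 2 : ℝ)]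
    exact mul_le_mul_of_nonneg_left (mul_le_mul_of_nonneg_right e2 (by positivity)) (by norm_num)
  refine (Finset.sum_le_sum h1).trans ?_
  rw [← Finset.mul_sum]
  have h2 : ∑ p ∈ (Finset.Ico n m).filter Nat.Prime, (p : ℝ) ^ (-(247 / 200) : ℝ) ≤ S := by
    have h3 := er_psum_nonneg_le (fun p => (p : ℝ) ^ (-(247 / 200) : ℝ)) (fun p => by positivity) hs m
    rw [hS]
    refine le_trans ?_ h3
    rw [psum]
    refine Finset.sum_le_sum_of_subset_of_nonneg ?_ fun _ _ _ => by positivity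
    intro p hp
    rw [Finset.mem_filter, Finset.mem_Ico] at hp
    rw [Finset.mem_filter, Finset.mem_range]
    exact ⟨hp.1.2, hp.2⟩
  calc 2048 * 1024 ^ 2 * (n : ℝ) ^ (-(47 / 200) : ℝ) *
        ∑ p ∈ (Finset.Ico n m).filter Nat.Prime, (p : ℝ) ^ (-(247 / 200) : ℝ)
      ≤ 2048 * 1024 ^ 2 * (n : ℝ) ^ (-(47 / 200) : ℝ) * S :=
        mul_le_mul_of_nonneg_left h2 (by positivity)
    _ = 2048 * 1024 ^ 2 * S * (n : ℝ) ^ (-(47 / 200) : ℝ) := by ring

theorem ee_rate2 (hN : NHyp N) (hfin : {p : Nat.Primes | bad p}.Finite) :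
    ∃ K T : ℝ, 0 ≤ K ∧ 1 ≤ T ∧ ∀ t : ℝ, T ≤ t →
      |ee N bad t + TTb N bad (Real.exp t) - E0 N bad| ≤ K * Real.exp (-(47 / 200 * t)) := by
  obtain ⟨B, hB⟩ : ∃ B : ℕ, ∀ p : ℕ, p.Prime → bad p → p < B := by
    obtain ⟨B, hB⟩ := (hfin.image fun p : Nat.Primes => (p : ℕ)).bddAbove
    refine ⟨B + 1, fun p hp hb => ?_⟩
    have : p ≤ B := hB ⟨⟨p, hp⟩, hb, rfl⟩
    omega
  obtain ⟨K, hK, h2⟩ := er_tail (N := N) (bad := bad) hN
  have hct : Tendsto (fun t : ℝ => ⌈Real.exp (t / 2)⌉₊) atTop atTop :=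
    tendsto_nat_ceil_atTop.comp (Real.tendsto_exp_atTop.comp (tendsto_id.atTop_div_const (by norm_num)))
  obtain ⟨T2, hT2⟩ := Filter.eventually_atTop.1 (hct.eventually_ge_atTop (max B 1024))
  refine ⟨K, max 1 T2, hK, le_max_left _ _, fun t ht => ?_⟩
  have ht1 : 1 ≤ t := (le_max_left _ _).trans ht
  have ht2 : T2 ≤ t := (le_max_right _ _).trans ht
  have ht0 : 0 < t := by linarith
  have ht' : max B 1024 ≤ ⌈Real.exp (t / 2)⌉₊ := hT2 t ht2
  have h3 := er_TTb_eq (N := N) (bad := bad) ht0.le (fun p hp hle => ⟨fun hb => by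
    have := hB p hp hb
    have := le_max_left B 1024
    omega, by
    have := le_max_right B 1024
    omega⟩)
  have hn : 1 ≤ ⌈Real.exp t⌉₊ := Nat.one_le_ceil_iff.2 (Real.exp_pos t)
  have h4 := h2 _ hn
  have h5 : ((⌈Real.exp t⌉₊ : ℕ) : ℝ) ^ (-(47 / 200) : ℝ) ≤ Real.exp (-(47 / 200 * t)) := by
    have e1 : ((⌈Real.exp t⌉₊ : ℕ) : ℝ) ^ (-(47 / 200) : ℝ) ≤ (Real.exp t) ^ (-(47 / 200) : ℝ) :=
      Real.rpow_le_rpow_of_nonpos (Real.exp_pos t) (Nat.le_ceil _) (by norm_num)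
    refine e1.trans ?_
    rw [← Real.exp_mul]
    have e2 : t * (-(47 / 200)) = -(47 / 200 * t) := by ring
    rw [e2]
  have h6 : ee N bad t + TTb N bad (Real.exp t) - E0 N bad =
      psum (fun p => c1 N bad p + c2 N bad p) ⌈Real.exp t⌉₊ - E0 N bad := by
    rw [h3, er_ee_eq]
    ring
  rw [h6]
  exact h4.trans (mul_le_mul_of_nonneg_left h5 hK)

/-- the order of `GG` at a zero -/
theorem GG_order (hN : NHyp N) (F : ℂ → ℂ) (hFd : Differentiable ℂ F) (w0 : ℂ) (hw0 : 0 ≤ w0.re) :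
    ∃ C : ℝ, 0 < C ∧ ∀ᶠ w in 𝓝 w0, ‖GG N bad F w‖ ≤ C * ‖w - w0‖ ^ analyticOrderNatAt F (1 + w0) := by
  -- the remaining factor
  set R : ℂ → ℂ := fun w => (∏ p ∈ smallP, if bad (p : ℕ) then (1 : ℂ) else 1 - zz N p w) *
    cexp (-Rf N bad w) with hR
  have hGG : ∀ w, GG N bad F w = F (1 + w) * R w := by
    intro w
    simp only [hR]
    unfold GG Gf
    ring
  have hRc : ContinuousAt R w0 := by
    have h1 : Continuous (fun w : ℂ => ∏ p ∈ smallP, if bad (p : ℕ) then (1 : ℂ) else 1 - zz N p w) := by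
      apply continuous_finsetProd
      intro p _
      split_ifs
      · exact continuous_const
      · exact continuous_const.sub (differentiable_zz N p p.2).continuous
    have h2 : ContinuousAt (fun w => cexp (-Rf N bad w)) w0 := by
      have h3 : DifferentiableAt ℂ (Rf N bad) w0 := by
        apply (differentiableOn_Rf (bad := bad) hN).differentiableAt
        apply (isOpen_lt continuous_const continuous_re).mem_nhds
        show -(1 / 100 : ℝ) < w0.re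
        linarith
      exact h3.continuousAt.neg.cexp
    exact h1.continuousAt.mul h2
  have ht : Tendsto (fun w : ℂ => 1 + w) (𝓝 w0) (𝓝 (1 + w0)) := (continuous_const.add continuous_id).tendsto w0
  by_cases hord : analyticOrderAt F (1 + w0) = ⊤
  · have hm : analyticOrderNatAt F (1 + w0) = 0 := by
      rw [analyticOrderNatAt, hord]; rfl
    rw [hm]
    refine ⟨‖F (1 + w0) * R w0‖ + 1, by positivity, ?_⟩
    have h1 : Tendsto (fun w => ‖F (1 + w) * R w‖) (𝓝 w0) (𝓝 ‖F (1 + w0) * R w0‖) :=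
      ((hFd.continuous.continuousAt.tendsto.comp ht).mul hRc.tendsto).norm
    filter_upwards [h1.eventually (gt_mem_nhds (lt_add_one _))] with w hw
    rw [hGG w, pow_zero, mul_one]
    exact hw.le
  · have hFan : AnalyticAt ℂ F (1 + w0) := hFd.analyticAt _
    obtain ⟨g, hga, hg0, hgeq⟩ := hFan.analyticOrderAt_ne_top.mp hord
    refine ⟨‖g (1 + w0) * R w0‖ + 1, by positivity, ?_⟩
    have h1 : Tendsto (fun w => ‖g (1 + w) * R w‖) (𝓝 w0) (𝓝 ‖g (1 + w0) * R w0‖) :=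
      ((hga.continuousAt.tendsto.comp ht).mul hRc.tendsto).norm
    filter_upwards [h1.eventually (gt_mem_nhds (lt_add_one _)), ht.eventually hgeq] with w hw hw2
    rw [hGG w, hw2]
    have e : (1 + w) - (1 + w0) = w - w0 := by ring
    rw [e, smul_eq_mul, mul_assoc, norm_mul, norm_pow, mul_comm]
    exact mul_le_mul_of_nonneg_right hw.le (by positivity)

theorem lapInt_const' (c : ℝ) {x : ℝ} (hx : 0 < x) :
    IntegrableOn (fun t : ℝ => c * Real.exp (-x * t)) (Ioi (0 : ℝ)) :=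
  (exp_neg_integrableOn_Ioi 0 hx).const_mul c

theorem lapInt_bdd {f : ℝ → ℝ} (hf : Measurable f) {C : ℝ} (hC : ∀ t, 0 < t → |f t| ≤ C) {x : ℝ} (hx : 0 < x) :
    LapInt f x := by
  unfold LapInt
  refine Integrable.mono' (lapInt_const' C hx) ?_ ?_
  · exact (hf.mul (by fun_prop)).aestronglyMeasurable
  · rw [ae_restrict_iff' measurableSet_Ioi]
    refine Eventually.of_forall fun t ht => ?_
    rw [norm_mul, Real.norm_eq_abs, Real.norm_eq_abs, abs_of_pos (Real.exp_pos _)]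
    exact mul_le_mul_of_nonneg_right (hC t ht) (Real.exp_pos _).le

end Pool.Agent.Helper16.OM
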