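import Pool.Agent.Helper16.OM.Order
import Pool.Agent.Helper16.OM.Rate
import Pool.Agent.Helper13.Bsd.OmegaMain

/-!
OM-4. Sharp oscillation of the Birch and Swinnerton-Dyer product at the zeros `ρ ≠ 1` with `Re ρ ≥ 1`.
-/

set_option autoImplicit false

namespace Pool.Agent.Helper16.OM

open Complex Filter Topology MeasureTheory Set
open Pool.Agent.Helper13.Bsd Pool.Agent.Helper7.GW Pool.Agent.Helper58.BSD Pool.Agent.Helper29.MS

section

variable (W : WeierstrassCurve ℤ) (N : ℕ → ℕ)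
    (hNdef : ∀ p : ℕ, N p = 1 + ((Finset.range p ×ˢ Finset.range p).filter
      (fun q : ℕ × ℕ => (p : ℤ) ∣ ((q.2 : ℤ) ^ 2 + W.a₁ * (q.1 : ℤ) * (q.2 : ℤ) + W.a₃ * (q.2 : ℤ)
        - ((q.1 : ℤ) ^ 3 + W.a₂ * (q.1 : ℤ) ^ 2 + W.a₄ * (q.1 : ℤ) + W.a₆)))).card)

/-- the logarithm of the ratio in the asymptotic, with the exact second order term -/
noncomputable def hs (F : ℂ → ℂ) (x : ℝ) : ℝ :=
  Real.log (PE W N x * Real.exp (TTb N (badW W) x) / (kon F / 2 * Real.log x ^ (analyticOrderNatAt F 1)))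

include hNdef in
theorem hs_exp (hΔ : W.Δ ≠ 0) (F : ℂ → ℂ) (hFd : Differentiable ℂ F) (hF : EulerHyp W N F) (t : ℝ)
    (ht : 0 < t) : hs W N F (Real.exp t) =
      LL N (badW W) t + TTb N (badW W) (Real.exp t) - (analyticOrderNatAt F 1 : ℕ) * Real.log t
        - Real.log (kon F / 2) := by
  have hk := kon_pos W N hNdef hΔ F hFd hF
  have hk2 : 0 < kon F / 2 := by positivity
  unfold hs
  rw [PE_exp W N hNdef, ← Real.exp_add, Real.log_exp,
    Real.log_div (Real.exp_pos _).ne' (mul_pos hk2 (pow_pos ht _)).ne', Real.log_exp,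
    Real.log_mul hk2.ne' (pow_pos ht _).ne', Real.log_pow]
  ring

include hNdef in
/-- the constant -/
theorem log_kon (hΔ : W.Δ ≠ 0) (F : ℂ → ℂ) (hFd : Differentiable ℂ F) (hF : EulerHyp W N F) :
    Real.log (kon F / 2) = (analyticOrderNatAt F 1 : ℕ) * Real.eulerMascheroniConstant -
      Real.log (‖iteratedDeriv (analyticOrderNatAt F 1) F 1‖ / ((analyticOrderNatAt F 1).factorial : ℝ) *
        Real.exp (E0 N (badW W))) + E0 N (badW W) := by
  have hN := nhyp W N hNdef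
  have hB : EulerB N (badW W) F := hF
  obtain ⟨hg0, hg⟩ := GG_lead hN F hFd hB
  set r := analyticOrderNatAt F 1 with hr
  set g : ℝ := ‖iteratedDeriv r F 1‖ / (r.factorial : ℝ) * Real.exp (E0 N (badW W)) with hgdef
  have hpos : 0 < ‖iteratedDeriv r F 1‖ := by
    have h1 : ‖iteratedDeriv r F 1‖ ≠ 0 := by
      intro h
      rw [hgdef, h] at hg0
      simp at hg0
    exact lt_of_le_of_ne (norm_nonneg _) (Ne.symm h1)
  have h1 : Real.exp (r * Real.eulerMascheroniConstant - Real.log g + E0 N (badW W)) = kon F / 2 := by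
    rw [Real.exp_add, Real.exp_sub, Real.exp_log hg0, hgdef]
    unfold kon
    rw [← hr]
    have := Real.exp_pos (E0 N (badW W))
    field_simp
  rw [← h1, Real.log_exp]

include hNdef in
/-- `T` is bounded for large `x` -/
theorem TT_bdd (hΔ : W.Δ ≠ 0) : ∃ C T : ℝ, 0 ≤ C ∧ 1 ≤ T ∧ ∀ t : ℝ, T ≤ t →
    |TTb N (badW W) (Real.exp t)| ≤ C := by
  have hN := nhyp W N hNdef
  obtain ⟨K, T, hK, hT, hrate⟩ := ee_rate2 (bad := badW W) hN (finite_bad W hΔ)
  obtain ⟨Ce, hCe, hCe2⟩ := ee_bdd (bad := badW W) hN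
  refine ⟨K + Ce + |E0 N (badW W)|, T, by positivity, hT, fun t ht => ?_⟩
  have ht0 : 0 < t := by linarith
  have h1 := hrate t ht
  have h2 := hCe2 t ht0
  have h3 : K * Real.exp (-(47 / 200 * t)) ≤ K := by
    have : Real.exp (-(47 / 200 * t)) ≤ 1 := Real.exp_le_one_iff.mpr (by linarith)
    nlinarith
  have h4 := le_abs_self (E0 N (badW W))
  have h5 := neg_abs_le (E0 N (badW W))
  rw [abs_le] at h1 h2 ⊢
  constructor <;> linarith [h1.1, h1.2, h2.1, h2.2]

include hNdef in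
/-- `ε log P` is bounded above by `K (1 + t)` if `ε hs ≤ κ / t` -/
theorem LL_upper (hΔ : W.Δ ≠ 0) (F : ℂ → ℂ) (hFd : Differentiable ℂ F) (hF : EulerHyp W N F) :
    ∃ K T : ℝ, 0 ≤ K ∧ 1 ≤ T ∧ ∀ ε : ℝ, (ε = 1 ∨ ε = -1) → ∀ t : ℝ, T ≤ t →
      ε * LL N (badW W) t ≤ ε * hs W N F (Real.exp t) + K * (1 + t) := by
  obtain ⟨C, T, hC, hT, hTT⟩ := TT_bdd W N hNdef hΔ
  set r : ℕ := analyticOrderNatAt F 1 with hr
  refine ⟨C + r + |Real.log (kon F / 2)|, T, by positivity, hT, fun ε hε t ht => ?_⟩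
  have ht0 : 0 < t := by linarith
  have h1 := hs_exp W N hNdef hΔ F hFd hF t ht0
  rw [← hr] at h1
  have h2 := hTT t ht
  have h3 : 0 ≤ Real.log t := Real.log_nonneg (by linarith)
  have h4 : Real.log t ≤ t := (Real.log_le_sub_one_of_pos ht0).trans (by linarith)
  have h5 : (0 : ℝ) ≤ r := Nat.cast_nonneg _
  have h6 : (r : ℝ) * Real.log t ≤ r * t := mul_le_mul_of_nonneg_left h4 h5
  have h7 : 0 ≤ (r : ℝ) * Real.log t := mul_nonneg h5 h3
  have h8 := le_abs_self (Real.log (kon F / 2))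
  have h9 := neg_abs_le (Real.log (kon F / 2))
  have h10 : (C + r + |Real.log (kon F / 2)|) * (1 + t) = C + r + |Real.log (kon F / 2)| + C * t + r * t +
      |Real.log (kon F / 2)| * t := by ring
  have h11 : 0 ≤ C * t := by positivity
  have h12 : 0 ≤ |Real.log (kon F / 2)| * t := by positivity
  rw [abs_le] at h2
  rw [h10]
  rcases hε with h' | h' <;> rw [h'] <;> linarith [h2.1, h2.2]

include hNdef in
/-- zeros on the line `Re s = 1` -/
theorem omega_line (hΔ : W.Δ ≠ 0) (F : ℂ → ℂ) (hFd : Differentiable ℂ F) (hF : EulerHyp W N F)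
    (γ : ℝ) (hγ : γ ≠ 0) (κ : ℝ) (hκ0 : 0 ≤ κ) (hκ : κ * |γ| < analyticOrderNatAt F (1 + γ * I))
    (ε : ℝ) (hε : ε = 1 ∨ ε = -1) (hreal : ε = 1 ∨ ∀ σ : ℝ, 1 < σ → F (σ : ℂ) ≠ 0) (t0 : ℝ)
    (h : ∀ t, t0 < t → ε * hs W N F (Real.exp t) ≤ κ / t) : False := by
  have hN := nhyp W N hNdef
  have hB : EulerB N (badW W) F := hF
  set r : ℕ := analyticOrderNatAt F 1 with hr
  set m : ℕ := analyticOrderNatAt F (1 + γ * I) with hm
  obtain ⟨K, T, hK, hT, hLL⟩ := LL_upper W N hNdef hΔ F hFd hF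
  -- the Laplace transform converges
  have hLint : ∀ x, 0 < x → LapInt (LL N (badW W)) x := by
    apply lapInt_continue N (badW W) F hFd (hN_of W N hNdef) (ap_bound W N hNdef) hF 0 le_rfl
      (fun t => (κ + K) * (1 + t)) (by fun_prop) (fun x hx => lapInt_lin (κ + K) hx) ε hε (max t0 T)
    · intro t ht
      have h1 : t0 < t := (le_max_left _ _).trans_lt ht
      have h2 : T < t := (le_max_right _ _).trans_lt ht
      have h3 := hLL ε hε t h2.le
      have h4 := h t h1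
      have ht1 : 1 ≤ t := by linarith
      have h5 : κ / t ≤ κ := div_le_self hκ0 ht1
      have h6 : (κ + K) * (1 + t) = κ + κ * t + K * (1 + t) := by ring
      have h7 : 0 ≤ κ * t := by positivity
      show 0 ≤ (κ + K) * (1 + t) - ε * LL N (badW W) t
      rw [h6]
      linarith
    · rcases hreal with h' | h'
      · exact Or.inl h'
      · right
        intro x hx
        apply Gf_ne_zero_of W N hNdef F hx.le
        have := h' (1 + x) (by linarith)
        push_cast at this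
        exact this
  obtain ⟨Ce, hCe, hCe2⟩ := ee_bdd (bad := badW W) hN
  have hint : ∀ x, 0 < x → LapInt (fun t => LL N (badW W) t - ee N (badW W) t) x := fun x hx =>
    (hLint x hx).sub (lapInt_bdd measurable_ee hCe2 hx)
  obtain ⟨A, hS⟩ := bsd_setup hN F hFd hB
  obtain ⟨hg0, hg⟩ := GG_lead hN F hFd hB
  rw [← hr] at hg0 hg
  have hγ0 : 0 < |γ| := abs_pos.mpr hγ
  have hmγ : κ < m / |γ| := by rw [lt_div_iff₀ hγ0]; exact hκ
  set κ' := (κ + m / |γ|) / 2 with hκ'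
  have hκκ' : κ < κ' := by rw [hκ']; linarith
  have hκ'm : κ' * |γ| < m := by
    have : κ' < m / |γ| := by rw [hκ']; linarith
    rwa [lt_div_iff₀ hγ0] at this
  have hκ'0 : 0 ≤ κ' := by linarith
  -- the order of `GG`
  obtain ⟨CG, hCG, hordG⟩ := GG_order (bad := badW W) hN F hFd (γ * I) (by simp)
  have hord : ∀ᶠ δ : ℝ in 𝓝[>] 0, ‖GG N (badW W) F ((δ : ℂ) + γ * I)‖ ≤ CG * δ ^ m := by
    have h1 : Tendsto (fun δ : ℝ => (δ : ℂ) + γ * I) (𝓝[>] 0) (𝓝 (γ * I)) := by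
      have h1 : Continuous (fun δ : ℝ => (δ : ℂ) + γ * I) := by fun_prop
      have h2 := (h1.tendsto 0).mono_left (nhdsWithin_le_nhds (s := Ioi (0 : ℝ)))
      simpa using h2
    have hpos : ∀ᶠ δ : ℝ in 𝓝[>] 0, (0 : ℝ) < δ := self_mem_nhdsWithin
    filter_upwards [h1.eventually hordG, hpos] with δ h2 h3
    have e : ‖(δ : ℂ) + γ * I - γ * I‖ = δ := by
      rw [add_sub_cancel_right, norm_real, Real.norm_eq_abs, abs_of_pos h3]
    rw [e] at h2
    exact h2
  -- comparison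
  obtain ⟨Kr, Tr, hKr, hTr, hrate⟩ := ee_rate2 (bad := badW W) hN (finite_bad W hΔ)
  have hlim : Tendsto (fun t : ℝ => κ' - Kr * (t * Real.exp (-(47 / 200 * t)))) atTop (𝓝 (κ' - Kr * 0)) := by
    have e1 : Tendsto (fun t : ℝ => t * Real.exp (-(47 / 200 * t))) atTop (𝓝 0) := by
      have h1 := (Real.tendsto_pow_mul_exp_neg_atTop_nhds_zero 1).comp
        (tendsto_id.const_mul_atTop (show (0 : ℝ) < 47 / 200 by norm_num))
      have h2 := h1.const_mul (200 / 47)
      rw [mul_zero] at h2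
      refine h2.congr fun t => ?_
      simp only [Function.comp, id, pow_one]
      ring
    exact (e1.const_mul Kr).const_sub κ'
  have hev : ∀ᶠ t : ℝ in atTop, κ < κ' - Kr * (t * Real.exp (-(47 / 200 * t))) :=
    hlim.eventually (lt_mem_nhds (by linarith))
  obtain ⟨t2, ht2⟩ := eventually_atTop.mp hev
  refine line_order hS r _ hg0 hg hint γ hγ m CG hCG hord ε hε κ' hκ'0 hκ'm (max t0 (max t2 Tr)) ?_
  intro t ht
  have h1 : t0 < t := (le_max_left _ _).trans_lt ht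
  have h2 : t2 < t := ((le_max_left _ _).trans (le_max_right _ _)).trans_lt ht
  have h3 : Tr < t := ((le_max_right _ _).trans (le_max_right _ _)).trans_lt ht
  have ht0 : 0 < t := by linarith
  have h4 := ht2 t h2.le
  have h5 := h t h1
  have h6 := hrate t h3.le
  have h7 := hs_exp W N hNdef hΔ F hFd hF t ht0
  rw [log_kon W N hNdef hΔ F hFd hF, ← hr] at h7
  set g : ℝ := ‖iteratedDeriv r F 1‖ / (r.factorial : ℝ) * Real.exp (E0 N (badW W)) with hgdef
  have e : ε * (LL N (badW W) t - ee N (badW W) t - r * Real.log t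
      - (r * Real.eulerMascheroniConstant - Real.log g)) =
      ε * hs W N F (Real.exp t) - ε * (ee N (badW W) t + TTb N (badW W) (Real.exp t) - E0 N (badW W)) := by
    rw [h7]
    ring
  rw [e]
  have h8 : -(ε * (ee N (badW W) t + TTb N (badW W) (Real.exp t) - E0 N (badW W))) ≤
      Kr * Real.exp (-(47 / 200 * t)) := by
    rw [abs_le] at h6
    rcases hε with h' | h' <;> rw [h'] <;> linarith [h6.1, h6.2]
  have h9 : κ / t + Kr * Real.exp (-(47 / 200 * t)) ≤ κ' / t := by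
    rw [le_div_iff₀ ht0, add_mul, div_mul_cancel₀ _ ht0.ne']
    nlinarith
  linarith

include hNdef in
/-- zeros to the right of the line -/
theorem omega_right (hΔ : W.Δ ≠ 0) (F : ℂ → ℂ) (hFd : Differentiable ℂ F) (hF : EulerHyp W N F)
    (ρ : ℂ) (hρ : 1 < ρ.re) (κ : ℝ) (hκ0 : 0 ≤ κ) (hκ : κ * ‖ρ - 1‖ < analyticOrderNatAt F ρ)
    (ε : ℝ) (hε : ε = 1 ∨ ε = -1) (hreal : ε = 1 ∨ ∀ σ : ℝ, ρ.re ≤ σ → F (σ : ℂ) ≠ 0) (t0 : ℝ)
    (h : ∀ t, t0 < t → ε * hs W N F (Real.exp t) ≤ κ * (Real.exp ((ρ.re - 1) * t) / t)) : False := by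
  set m := analyticOrderNatAt F ρ with hm
  have hnpos : 0 < ‖ρ - 1‖ := by
    rw [norm_pos_iff, sub_ne_zero]
    rintro rfl
    simp at hρ
  have hκm : κ < m / ‖ρ - 1‖ := by rw [lt_div_iff₀ hnpos]; exact hκ
  set κ' := (κ + m / ‖ρ - 1‖) / 2 with hκ'
  have hκκ' : κ < κ' := by rw [hκ']; linarith
  have hκ'm : κ' * ‖ρ - 1‖ < m := by
    have : κ' < m / ‖ρ - 1‖ := by rw [hκ']; linarith
    rwa [lt_div_iff₀ hnpos] at this
  have hκ'0 : 0 ≤ κ' := by linarith
  obtain ⟨K, T, hK, hT, hLL⟩ := LL_upper W N hNdef hΔ F hFd hF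
  set θ := ρ.re - 1 with hθ
  have hθ0 : 0 < θ := by rw [hθ]; linarith
  -- `K (1 + t) t ≤ (κ' - κ) e^{θ t}` for large `t`
  have hlim : Tendsto (fun t : ℝ => K * ((1 + t) * t) * Real.exp (-(θ * t))) atTop (𝓝 0) := by
    have h1 : Tendsto (fun t : ℝ => (θ * t) ^ 1 * Real.exp (-(θ * t))) atTop (𝓝 0) :=
      (Real.tendsto_pow_mul_exp_neg_atTop_nhds_zero 1).comp (tendsto_id.const_mul_atTop hθ0)
    have h2 : Tendsto (fun t : ℝ => (θ * t) ^ 2 * Real.exp (-(θ * t))) atTop (𝓝 0) :=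
      (Real.tendsto_pow_mul_exp_neg_atTop_nhds_zero 2).comp (tendsto_id.const_mul_atTop hθ0)
    have h3 := (h1.const_mul (K / θ)).add (h2.const_mul (K / θ ^ 2))
    rw [mul_zero, mul_zero, add_zero] at h3
    refine h3.congr fun t => ?_
    field_simp
  have hev : ∀ᶠ t : ℝ in atTop, K * ((1 + t) * t) * Real.exp (-(θ * t)) < κ' - κ :=
    hlim.eventually (gt_mem_nhds (by linarith))
  obtain ⟨t2, ht2⟩ := eventually_atTop.mp hev
  refine omega_aux W N hNdef F hFd hF ρ hρ κ' hκ'0 hκ'm ε hε hreal (max t0 (max t2 T)) ?_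
  intro t ht
  have h1 : t0 < t := (le_max_left _ _).trans_lt ht
  have h2 : t2 < t := ((le_max_left _ _).trans (le_max_right _ _)).trans_lt ht
  have h3 : T < t := ((le_max_right _ _).trans (le_max_right _ _)).trans_lt ht
  have ht0 : 0 < t := by linarith
  have h4 := ht2 t h2.le
  have h5 := h t h1
  have h6 := hLL ε hε t h3.le
  have h7 : K * (1 + t) ≤ (κ' - κ) * (Real.exp (θ * t) / t) := by
    have e1 : K * ((1 + t) * t) ≤ (κ' - κ) * Real.exp (θ * t) := by
      have h8 := mul_le_mul_of_nonneg_right h4.le (Real.exp_pos (θ * t)).le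
      have e2 : K * ((1 + t) * t) * Real.exp (-(θ * t)) * Real.exp (θ * t) = K * ((1 + t) * t) := by
        rw [mul_assoc, ← Real.exp_add, neg_add_cancel, Real.exp_zero, mul_one]
      rw [e2] at h8
      exact h8
    rw [mul_div_assoc', le_div_iff₀ ht0]
    linarith
  have h8 : κ * (Real.exp (θ * t) / t) + (κ' - κ) * (Real.exp (θ * t) / t) =
      κ' * (Real.exp (θ * t) / t) := by ring
  linarith

include hNdef in
theorem omega_sharp (hΔ : W.Δ ≠ 0) (F : ℂ → ℂ) (hFd : Differentiable ℂ F) (hF : EulerHyp W N F)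
    (ρ : ℂ) (hρ : 1 ≤ ρ.re) (hρ1 : ρ ≠ 1) (κ : ℝ) (hκ0 : 0 ≤ κ) (hκ : κ * ‖ρ - 1‖ < analyticOrderNatAt F ρ) :
    (∃ᶠ x : ℝ in atTop, κ * (x ^ (ρ.re - 1) / Real.log x) ≤ hs W N F x) ∧
    ((∀ β : ℝ, 1 < β → ρ.re ≤ β → F (β : ℂ) ≠ 0) →
      ∃ᶠ x : ℝ in atTop, hs W N F x ≤ -(κ * (x ^ (ρ.re - 1) / Real.log x))) := by
  have key : ∀ ε : ℝ, (ε = 1 ∨ ε = -1) → (ε = 1 ∨ ∀ β : ℝ, 1 < β → ρ.re ≤ β → F (β : ℂ) ≠ 0) → ∀ x1 : ℝ,
      (∀ x, x1 ≤ x → ε * hs W N F x ≤ κ * (x ^ (ρ.re - 1) / Real.log x)) → False := by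
    intro ε hε hreal x1 hx1
    have hx2 : ∀ t, Real.log (max x1 1) < t →
        ε * hs W N F (Real.exp t) ≤ κ * (Real.exp ((ρ.re - 1) * t) / t) := by
      intro t ht
      have h3 : max x1 1 < Real.exp t := (Real.log_lt_iff_lt_exp (by positivity)).mp ht
      have h4 := hx1 _ ((le_max_left _ _).trans h3.le)
      rw [Real.log_exp, ← Real.exp_mul] at h4
      rw [mul_comm (ρ.re - 1) t]
      exact h4
    rcases hρ.lt_or_eq with h1 | h1
    · refine omega_right W N hNdef hΔ F hFd hF ρ h1 κ hκ0 hκ ε hε ?_ _ hx2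
      rcases hreal with h' | h'
      · exact Or.inl h'
      · exact Or.inr fun σ hσ => h' σ (h1.trans_le hσ) hσ
    · have hρ2 : ρ = 1 + (ρ.im : ℂ) * I := by
        apply Complex.ext
        · simp [h1]
        · simp
      have hγ : ρ.im ≠ 0 := by
        intro h0
        apply hρ1
        rw [hρ2, h0]
        simp
      have hn : ‖ρ - 1‖ = |ρ.im| := by
        have e : ρ - 1 = (ρ.im : ℂ) * I := by
          conv_lhs => rw [hρ2]
          ring
        rw [e, norm_mul, norm_real, norm_I, mul_one, Real.norm_eq_abs]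
      refine omega_line W N hNdef hΔ F hFd hF ρ.im hγ κ hκ0 ?_ ε hε ?_ (Real.log (max x1 1))
        (fun t ht => ?_)
      · rw [← hρ2, ← hn]
        exact hκ
      · rcases hreal with h' | h'
        · exact Or.inl h'
        · exact Or.inr fun σ hσ => h' σ hσ (by rw [← h1]; exact hσ.le)
      · have h5 := hx2 t ht
        rw [← h1, sub_self, zero_mul, Real.exp_zero, mul_one_div] at h5
        exact h5
  constructor
  · intro hcon
    obtain ⟨x1, hx1⟩ := eventually_atTop.mp hcon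
    refine key 1 (Or.inl rfl) (Or.inl rfl) x1 fun x hx => ?_
    have := hx1 x hx
    rw [not_le] at this
    linarith
  · intro hreal hcon
    obtain ⟨x1, hx1⟩ := eventually_atTop.mp hcon
    refine key (-1) (Or.inr rfl) (Or.inr hreal) x1 fun x hx => ?_
    have := hx1 x hx
    rw [not_le] at this
    linarith

end

end Pool.Agent.Helper16.OM
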