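import Pool.Agent.Helper16.OM.Asym

/-!
OM-6. If `ε (v - κ) ≤ K k1` for large `t`, then `ell`, `ell 0 = K`, `ell μ = ε m_μ i / μ`, is positive definite on the
discrete group `ℝ`.
-/

set_option autoImplicit false

namespace Pool.Agent.Helper16.OM

open Complex Filter Topology MeasureTheory Set
open Pool.Agent.Helper13.Bsd Pool.Agent.Helper7.GW Pool.Agent.Helper58.BSD Pool.Agent.Helper29.MS

variable {v : ℝ → ℝ} {G : ℂ → ℂ} {A a η : ℝ}

/-- the limit of `Lap b (δ + i μ) / log (1 / δ)` -/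
noncomputable def ell (K ε : ℝ) (mm : ℝ → ℕ) (μ : ℝ) : ℂ := if μ = 0 then (K : ℂ) else ε * mm μ * I / μ

/-- the test function -/
noncomputable def pp (B : Finset ℝ) (τ t : ℝ) : ℝ := ∑ x ∈ B, ∑ y ∈ B, Real.cos ((x - y) * (t - τ))

theorem pp_nonneg (B : Finset ℝ) (τ t : ℝ) : 0 ≤ pp B τ t := by
  have e : pp B τ t = (∑ x ∈ B, Real.cos (x * (t - τ))) ^ 2 + (∑ x ∈ B, Real.sin (x * (t - τ))) ^ 2 := by
    unfold pp
    rw [sq, sq, Finset.sum_mul_sum, Finset.sum_mul_sum, ← Finset.sum_add_distrib]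
    refine Finset.sum_congr rfl fun x _ => ?_
    rw [← Finset.sum_add_distrib]
    refine Finset.sum_congr rfl fun y _ => ?_
    rw [sub_mul, Real.cos_sub]
  rw [e]
  positivity

theorem pp_le (B : Finset ℝ) (τ t : ℝ) : pp B τ t ≤ (B.card : ℝ) ^ 2 := by
  unfold pp
  calc ∑ x ∈ B, ∑ y ∈ B, Real.cos ((x - y) * (t - τ)) ≤ ∑ x ∈ B, ∑ y ∈ B, (1 : ℝ) :=
        Finset.sum_le_sum fun x _ => Finset.sum_le_sum fun y _ => Real.cos_le_one _
    _ = (B.card : ℝ) ^ 2 := by
        simp only [Finset.sum_const, nsmul_eq_mul, mul_one]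
        ring

theorem measurable_pp (B : Finset ℝ) (τ : ℝ) : Measurable (pp B τ) := by
  unfold pp
  fun_prop

theorem pd_core (hS : Setup v G A a η) (hG0 : G 0 ≠ 0) (hint : ∀ x, 0 < x → LapInt v x)
    (hid : ∀ w : ℂ, 0 < w.re → G w = cexp (-(w * Lap v w))) (mm : ℝ → ℕ)
    (hmm : ∀ μ : ℝ, μ ≠ 0 → ∃ g : ℂ → ℂ, AnalyticAt ℂ g (μ * I) ∧ g (μ * I) ≠ 0 ∧
      ∀ᶠ w in 𝓝 (μ * I : ℂ), G w = (w - μ * I) ^ (mm μ) * g w)
    (ε : ℝ) (hε : ε = 1 ∨ ε = -1) (K : ℝ) (hK0 : 0 ≤ K) (t0 : ℝ)
    (h : ∀ t, t0 < t → ε * (v t - kap G) ≤ K * k1 t) (B : Finset ℝ) (τ : ℝ) :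
    0 ≤ ∑ x ∈ B, ∑ y ∈ B, (cexp (((x - y) * τ : ℝ) * I) * ell K ε mm (x - y)).re := by
  have hLm := hS.grow.meas
  obtain ⟨c, hc⟩ : ∃ c, c = kap G := ⟨_, rfl⟩
  rw [← hc] at h
  set g : ℝ → ℝ := fun t => K * (Real.exp (0 * t) * k1 t) with hg
  have hg1m : Measurable (fun t => Real.exp (0 * t) * k1 t) :=
    (by fun_prop : Measurable fun t : ℝ => Real.exp (0 * t)).mul measurable_k1
  have hgm : Measurable g := hg1m.const_mul K
  have hgi : ∀ x, 0 < x → LapInt g x := fun x hx => (LapInt_k1 hx).const_mul K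
  set u : ℝ → ℝ := fun t => v t - c with hu
  have hum : Measurable u := hLm.sub measurable_const
  have huint : ∀ x, 0 < x → LapInt u x := fun x hx => (hint x hx).sub (lapInt_const c hx)
  -- the function b
  set b : ℝ → ℝ := fun t => g t - ε * u t with hb
  have hbm : Measurable b := hgm.sub (hum.const_mul ε)
  have hbint : ∀ x, 0 < x → LapInt b x := fun x hx => (hgi x hx).sub ((huint x hx).const_mul ε)
  set ind : ℝ → ℝ := (Iic t0).indicator (fun t => |b t|) with hind
  have habsb : ∀ x, 0 < x → LapInt (fun t => |b t|) x := by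
    intro x hx
    have hf := hbint x hx
    unfold LapInt at *
    refine hf.norm.congr ?_
    filter_upwards with t
    rw [norm_mul, Real.norm_eq_abs, Real.norm_eq_abs, Real.abs_exp]
  have hindint : ∀ x, LapInt ind x := fun x =>
    (habsb 1 one_pos).indicator_Iic hbm.abs t0 x
  have hindnn : ∀ t, 0 ≤ ind t := fun t => indicator_nonneg (fun _ _ => abs_nonneg _) t
  set M := ∫ t in Ioi (0 : ℝ), ind t * Real.exp (-0 * t) with hM
  have hM0 : 0 ≤ M :=
    setIntegral_nonneg measurableSet_Ioi fun t _ => mul_nonneg (hindnn t) (Real.exp_pos _).le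
  have hindB : ∀ x, 0 < x → ∫ t in Ioi (0 : ℝ), ind t * Real.exp (-x * t) ≤ M := by
    intro x hx
    apply setIntegral_mono_on (hindint x) (hindint 0) measurableSet_Ioi
    intro t ht
    have ht' : 0 < t := ht
    apply mul_le_mul_of_nonneg_left _ (hindnn t)
    rw [Real.exp_le_exp]
    nlinarith
  have hlow : ∀ t, -ind t ≤ b t := by
    intro t
    by_cases ht : t ∈ Iic t0
    · rw [hind, indicator_of_mem ht]
      exact neg_abs_le (b t)
    · rw [hind, indicator_of_notMem ht]
      have h1 : t0 < t := by simpa using ht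
      have h2 := h t h1
      have h3 : 0 ≤ b t := by
        simp only [hb, hg, hu, zero_mul, Real.exp_zero, one_mul]
        linarith
      linarith
  -- real integrals
  set J : ℝ → ℝ := fun x => ∫ t in Ioi (0 : ℝ), v t * Real.exp (-x * t) with hJ
  have hux : ∀ x, 0 < x → ∫ t in Ioi (0 : ℝ), u t * Real.exp (-x * t) = J x - c / x := by
    intro x hx
    have h1 : ∀ t, u t * Real.exp (-x * t) = v t * Real.exp (-x * t) - c * Real.exp (-x * t) := by
      intro t
      simp only [hu]
      ring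
    simp_rw [h1]
    rw [integral_sub (hint x hx) (lapInt_const c hx), int_const c hx]
  have hbx : ∀ x, 0 < x → ∫ t in Ioi (0 : ℝ), b t * Real.exp (-x * t)
      = K * Real.log ((x - 0 + 1) / (x - 0)) - ε * (J x - c / x) := by
    intro x hx
    have h1 : ∀ t, b t * Real.exp (-x * t) = K * ((Real.exp (0 * t) * k1 t) * Real.exp (-x * t))
        - ε * (u t * Real.exp (-x * t)) := by
      intro t
      simp only [hb, hg]
      ring
    simp_rw [h1]
    rw [integral_sub, integral_const_mul, integral_const_mul, Lap_k1_real 0 x hx, hux x hx]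
    · exact Integrable.const_mul (LapInt_k1 hx) _
    · exact Integrable.const_mul (huint x hx) _
  have hnormGx : ∀ x : ℝ, 0 < x → ‖G (x : ℂ)‖ = Real.exp (-(x * J x)) := by
    intro x hx
    rw [hid (x : ℂ) (by rw [ofReal_re]; exact hx), norm_exp, neg_re, re_Lap_ofReal, ← ofReal_mul, ofReal_re]
  obtain ⟨C1, hC10, ev3⟩ := log_norm_bound hS hG0
  have hpos : ∀ᶠ δ : ℝ in 𝓝[>] 0, (0 : ℝ) < δ := self_mem_nhdsWithin
  have hlt1 : ∀ᶠ δ : ℝ in 𝓝[>] 0, δ < 1 :=
    (gt_mem_nhds one_pos : ∀ᶠ x : ℝ in 𝓝 0, x < 1).filter_mono nhdsWithin_le_nhds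
  have hL : Tendsto (fun δ : ℝ => Real.log (1 / δ)) (𝓝[>] 0) atTop := by
    have h1 : Tendsto (fun δ : ℝ => 1 / δ) (𝓝[>] 0) atTop := by
      simp_rw [one_div]
      exact tendsto_inv_nhdsGT_zero
    exact Real.tendsto_log_atTop.comp h1
  have hsmall : ∀ C : ℝ, Tendsto (fun δ : ℝ => C / Real.log (1 / δ)) (𝓝[>] 0) (𝓝 0) := fun C =>
    hL.const_div_atTop C
  -- the asymptotic of the Laplace transform
  have hlim : ∀ μ : ℝ, Tendsto (fun δ : ℝ => Lap b ((δ : ℂ) + μ * I) / (Real.log (1 / δ) : ℝ)) (𝓝[>] 0)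
      (𝓝 (ell K ε mm μ)) := by
    intro μ
    by_cases hμ : μ = 0
    · subst hμ
      rw [ell, if_pos rfl]
      have h1 : Tendsto (fun δ : ℝ => (∫ t in Ioi (0 : ℝ), b t * Real.exp (-δ * t)) / Real.log (1 / δ))
          (𝓝[>] 0) (𝓝 K) := by
        rw [tendsto_iff_norm_sub_tendsto_zero]
        refine squeeze_zero' (Eventually.of_forall fun _ => norm_nonneg _) ?_ (hsmall (K + C1))
        filter_upwards [hpos, hlt1, ev3, hL.eventually_gt_atTop 0] with δ h1 h2 h4 h5
        rw [hbx δ h1]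
        have e1 : Real.log ((δ - 0 + 1) / (δ - 0)) = Real.log (1 / δ) + Real.log (1 + δ) := by
          rw [sub_zero, ← Real.log_mul (by positivity) (by positivity)]
          congr 1
          field_simp
          ring
        have e2 : |J δ - c / δ| ≤ C1 := by
          have e3 : J δ - c / δ = -(Real.log ‖G (δ : ℂ)‖ - Real.log ‖G 0‖) / δ := by
            rw [hnormGx δ h1, Real.log_exp, hc, kap]
            field_simp
            ring
          rw [e3, abs_div, abs_neg, abs_of_pos h1, div_le_iff₀ h1]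
          exact h4
        have e4 : 0 ≤ Real.log (1 + δ) := Real.log_nonneg (by linarith)
        have e5 : Real.log (1 + δ) ≤ 1 := by
          have := Real.log_le_sub_one_of_pos (show 0 < 1 + δ by linarith)
          linarith
        rw [e1, Real.norm_eq_abs]
        have e6 : (K * (Real.log (1 / δ) + Real.log (1 + δ)) - ε * (J δ - c / δ)) / Real.log (1 / δ) - K =
            (K * Real.log (1 + δ) - ε * (J δ - c / δ)) / Real.log (1 / δ) := by
          field_simp
          ring
        rw [e6, abs_div, abs_of_pos h5]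
        gcongr
        have e7 : |ε * (J δ - c / δ)| ≤ C1 := by
          rw [abs_mul]
          rcases hε with h' | h' <;> rw [h'] <;> simpa using e2
        have e8 : |K * Real.log (1 + δ)| ≤ K := by
          rw [abs_of_nonneg (mul_nonneg hK0 e4)]
          nlinarith
        exact (abs_sub _ _).trans (add_le_add e8 e7)
      have h2 := (continuous_ofReal.tendsto K).comp h1
      refine h2.congr fun δ => ?_
      simp only [Function.comp]
      rw [ofReal_zero, zero_mul, add_zero, re_Lap_ofReal, ofReal_div]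
    · rw [ell, if_neg hμ]
      obtain ⟨g1, hg1, hg10, hgeq⟩ := hmm μ hμ
      obtain ⟨C, hC0, hCe⟩ := L_asymp hLm hint hid μ (mm μ) g1 hg1 hg10 hgeq
      have hμ0 : 0 < |μ| := abs_pos.mpr hμ
      -- comparison with `- ε m / w`
      have hmain : Tendsto (fun δ : ℝ => Lap b ((δ : ℂ) + μ * I) / (Real.log (1 / δ) : ℝ) -
          (-(ε * mm μ) / ((δ : ℂ) + μ * I))) (𝓝[>] 0) (𝓝 0) := by
        rw [tendsto_zero_iff_norm_tendsto_zero]
        refine squeeze_zero' (Eventually.of_forall fun _ => norm_nonneg _) ?_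
          (hsmall (K * (1 / |μ|) + (C + |c|) / |μ|))
        filter_upwards [hpos, hCe, hL.eventually_gt_atTop 0] with δ h1 h2 h5
        set w : ℂ := (δ : ℂ) + μ * I with hw
        have hwre : w.re = δ := by rw [hw]; simp
        have hwim : w.im = μ := by rw [hw]; simp
        have hw0 : 0 < w.re := by rw [hwre]; linarith
        have hwn : |μ| ≤ ‖w‖ := by rw [← hwim]; exact abs_im_le_norm w
        have hwpos : 0 < ‖w‖ := hμ0.trans_le hwn
        have hwne : w ≠ 0 := norm_pos_iff.mp hwpos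
        have hLne : ((Real.log (1 / δ) : ℝ) : ℂ) ≠ 0 := by
          rw [Ne, ofReal_eq_zero]
          exact h5.ne'
        have hLu : Lap u w = Lap v w - c / w := by
          have e1 : Lap (fun _ : ℝ => c) w = c / w := by
            unfold Lap
            rw [integral_const_mul]
            have hre : (-w).re < 0 := by rw [neg_re]; linarith
            have h10 := integral_exp_mul_complex_Ioi hre 0
            rw [h10, ofReal_zero, mul_zero, exp_zero, neg_div_neg_eq, mul_one_div]
          rw [hu, Lap_sub hLm measurable_const (hint _ hw0) (lapInt_const c hw0), e1]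
        have hLb : Lap b w = Lap g w - ε * Lap u w := by
          have e3 : Lap (fun x => ε * u x) w = ε * Lap u w := Lap_const_mul u ε w
          rw [hb, Lap_sub hgm (hum.const_mul ε) (hgi _ hw0) ((huint _ hw0).const_mul ε), e3]
        have hgw : ‖Lap g w‖ ≤ K * (1 / |μ|) := by
          rw [hg, Lap_const_mul, norm_mul, norm_real, Real.norm_eq_abs, abs_of_nonneg hK0]
          have h13 := norm_Lap_k1_le 0 w hw0 (by rw [hwim]; exact hμ)
          rw [hwim] at h13
          exact mul_le_mul_of_nonneg_left h13 hK0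
        set e : ℂ := w * Lap v w - mm μ * Real.log (1 / δ) with he
        have hv : Lap v w = (mm μ * Real.log (1 / δ) + e) / w := by
          rw [he]; field_simp; ring
        have e1 : Lap b w / (Real.log (1 / δ) : ℝ) - (-(ε * mm μ) / w) =
            (Lap g w - ε * (e - c) / w) / (Real.log (1 / δ) : ℝ) := by
          rw [hLb, hLu, hv]
          field_simp
          ring
        rw [e1, norm_div, norm_real, Real.norm_eq_abs, abs_of_pos h5]
        gcongr
        refine (norm_sub_le _ _).trans (add_le_add hgw ?_)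
        rw [norm_div, norm_mul]
        have hεn : ‖(ε : ℂ)‖ = 1 := by
          rcases hε with h' | h' <;> rw [h'] <;> simp
        rw [hεn, one_mul]
        have e2 : ‖e - c‖ ≤ C + |c| := by
          refine (norm_sub_le _ _).trans (add_le_add h2 ?_)
          rw [norm_real, Real.norm_eq_abs]
        gcongr
      have hlim2 : Tendsto (fun δ : ℝ => (-(ε * mm μ) : ℂ) / ((δ : ℂ) + μ * I)) (𝓝[>] 0)
          (𝓝 (ε * mm μ * I / μ)) := by
        have h1 : Tendsto (fun δ : ℝ => (δ : ℂ) + μ * I) (𝓝[>] 0) (𝓝 (μ * I)) := by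
          have h1 : Continuous (fun δ : ℝ => (δ : ℂ) + μ * I) := by fun_prop
          have h2 := (h1.tendsto 0).mono_left (nhdsWithin_le_nhds (s := Ioi (0 : ℝ)))
          simpa using h2
        have hμc : (μ : ℂ) ≠ 0 := by exact_mod_cast hμ
        have h2 : (μ * I : ℂ) ≠ 0 := mul_ne_zero hμc I_ne_zero
        have h3 := (tendsto_const_nhds (x := (-(ε * mm μ) : ℂ)) (f := 𝓝[>] (0 : ℝ))).div h1 h2
        have e3 : (-(ε * mm μ) : ℂ) / (μ * I) = ε * mm μ * I / μ := by
          rw [div_eq_div_iff h2 hμc]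
          have : I * I = -1 := I_mul_I
          linear_combination (-(ε * mm μ * μ) : ℂ) * this
        rw [e3] at h3
        exact h3
      have h3 := hmain.add hlim2
      rw [zero_add] at h3
      refine h3.congr fun δ => ?_
      ring
  -- the integral against the test function
  have hI : ∀ δ : ℝ, 0 < δ → ∫ t in Ioi (0 : ℝ), b t * pp B τ t * Real.exp (-δ * t) =
      ∑ x ∈ B, ∑ y ∈ B, (cexp (((x - y) * τ : ℝ) * I) * Lap b ((δ : ℂ) + ((x - y : ℝ) : ℂ) * I)).re := by
    intro δ hδ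
    have h1 : ∀ μ : ℝ, IntegrableOn (fun t : ℝ => (b t : ℂ) * cexp (-((δ : ℂ) + (μ : ℂ) * I) * t)) (Ioi 0) := by
      intro μ
      have hre : ((δ : ℂ) + (μ : ℂ) * I).re = δ := by simp
      exact LapInt.complex hbm (by rw [hre]; exact hbint δ hδ)
    have h2 : ∀ μ : ℝ, (cexp ((μ * τ : ℝ) * I) * Lap b ((δ : ℂ) + (μ : ℂ) * I)).re =
        ∫ t in Ioi (0 : ℝ), b t * Real.cos (μ * (t - τ)) * Real.exp (-δ * t) := by
      intro μ
      unfold Lap
      rw [← integral_const_mul]
      have h3 : Integrable (fun t : ℝ => cexp ((μ * τ : ℝ) * I) * ((b t : ℂ) * cexp (-((δ : ℂ) + (μ : ℂ) * I) * t)))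
          (volume.restrict (Ioi 0)) := (h1 μ).const_mul _
      have h4 := reCLM.integral_comp_comm h3
      simp only [reCLM_apply] at h4
      rw [← h4]
      refine integral_congr_ae (Eventually.of_forall fun t => ?_)
      simp only
      have e1 : cexp ((μ * τ : ℝ) * I) * ((b t : ℂ) * cexp (-((δ : ℂ) + (μ : ℂ) * I) * t)) =
          ((b t * Real.exp (-δ * t) : ℝ) : ℂ) * cexp ((-(μ * (t - τ)) : ℝ) * I) := by
        have e2 : cexp ((μ * τ : ℝ) * I) * cexp (-((δ : ℂ) + (μ : ℂ) * I) * t) =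
            cexp ((-δ * t : ℝ) : ℂ) * cexp ((-(μ * (t - τ)) : ℝ) * I) := by
          rw [← exp_add, ← exp_add]
          congr 1
          push_cast
          ring
        have e3 : ((b t * Real.exp (-δ * t) : ℝ) : ℂ) = (b t : ℂ) * cexp ((-δ * t : ℝ) : ℂ) := by
          rw [ofReal_mul, ofReal_exp]
        rw [e3]
        calc cexp ((μ * τ : ℝ) * I) * ((b t : ℂ) * cexp (-((δ : ℂ) + (μ : ℂ) * I) * t)) =
              (b t : ℂ) * (cexp ((μ * τ : ℝ) * I) * cexp (-((δ : ℂ) + (μ : ℂ) * I) * t)) := by ring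
          _ = _ := by rw [e2]; ring
      rw [e1, re_ofReal_mul, exp_ofReal_mul_I_re, Real.cos_neg]
      ring
    have h5 : ∀ μ : ℝ, IntegrableOn (fun t : ℝ => b t * Real.cos (μ * (t - τ)) * Real.exp (-δ * t)) (Ioi 0) := by
      intro μ
      refine Integrable.mono' (habsb δ hδ) ?_ ?_
      · exact ((hbm.mul (by fun_prop)).mul (by fun_prop)).aestronglyMeasurable
      · refine Eventually.of_forall fun t => ?_
        rw [norm_mul, norm_mul, Real.norm_eq_abs, Real.norm_eq_abs, Real.norm_eq_abs, Real.abs_exp]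
        have h6 := Real.abs_cos_le_one (μ * (t - τ))
        have h7 := abs_nonneg (b t)
        have h8 : |b t| * |Real.cos (μ * (t - τ))| ≤ |b t| := by nlinarith
        exact mul_le_mul_of_nonneg_right h8 (Real.exp_pos _).le
    simp_rw [h2]
    have h6 : ∀ t, b t * pp B τ t * Real.exp (-δ * t) =
        ∑ x ∈ B, ∑ y ∈ B, b t * Real.cos ((x - y) * (t - τ)) * Real.exp (-δ * t) := by
      intro t
      unfold pp
      rw [Finset.mul_sum, Finset.sum_mul]
      refine Finset.sum_congr rfl fun x _ => ?_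
      rw [Finset.mul_sum, Finset.sum_mul]
    simp_rw [h6]
    rw [integral_finset_sum _ fun x _ => integrable_finset_sum _ fun y _ => h5 (x - y)]
    refine Finset.sum_congr rfl fun x _ => ?_
    rw [integral_finset_sum _ fun y _ => h5 (x - y)]
  have hIlow : ∀ δ : ℝ, 0 < δ → -((B.card : ℝ) ^ 2 * M) ≤
      ∫ t in Ioi (0 : ℝ), b t * pp B τ t * Real.exp (-δ * t) := by
    intro δ hδ
    have h1 : IntegrableOn (fun t : ℝ => b t * pp B τ t * Real.exp (-δ * t)) (Ioi 0) := by
      have h0 : Integrable (fun t : ℝ => (B.card : ℝ) ^ 2 * (|b t| * Real.exp (-δ * t)))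
          (volume.restrict (Ioi 0)) := Integrable.const_mul (habsb δ hδ) _
      refine Integrable.mono' h0 ?_ ?_
      · exact ((hbm.mul (measurable_pp B τ)).mul (by fun_prop)).aestronglyMeasurable
      · refine Eventually.of_forall fun t => ?_
        rw [norm_mul, norm_mul, Real.norm_eq_abs, Real.norm_eq_abs, Real.norm_eq_abs, Real.abs_exp,
          abs_of_nonneg (pp_nonneg B τ t)]
        have h6 := pp_le B τ t
        have h7 := abs_nonneg (b t)
        have h8 : |b t| * pp B τ t ≤ (B.card : ℝ) ^ 2 * |b t| := by nlinarith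
        calc |b t| * pp B τ t * Real.exp (-δ * t) ≤ (B.card : ℝ) ^ 2 * |b t| * Real.exp (-δ * t) :=
              mul_le_mul_of_nonneg_right h8 (Real.exp_pos _).le
          _ = (B.card : ℝ) ^ 2 * (|b t| * Real.exp (-δ * t)) := by ring
    have h2 : ∫ t in Ioi (0 : ℝ), -((B.card : ℝ) ^ 2) * (ind t * Real.exp (-δ * t)) ≤
        ∫ t in Ioi (0 : ℝ), b t * pp B τ t * Real.exp (-δ * t) := by
      have h0 : Integrable (fun t : ℝ => -((B.card : ℝ) ^ 2) * (ind t * Real.exp (-δ * t)))
          (volume.restrict (Ioi 0)) := Integrable.const_mul (hindint δ) _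
      refine setIntegral_mono_on h0 h1 measurableSet_Ioi ?_
      intro t _
      have h6 := pp_le B τ t
      have h7 := pp_nonneg B τ t
      have h8 := hlow t
      have h9 := hindnn t
      have h10 : -((B.card : ℝ) ^ 2 * ind t) ≤ b t * pp B τ t := by nlinarith
      calc -((B.card : ℝ) ^ 2) * (ind t * Real.exp (-δ * t)) = -((B.card : ℝ) ^ 2 * ind t) * Real.exp (-δ * t) := by
            ring
        _ ≤ _ := mul_le_mul_of_nonneg_right h10 (Real.exp_pos _).le
    rw [integral_const_mul] at h2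
    have h3 := hindB δ hδ
    have h4 : 0 ≤ (B.card : ℝ) ^ 2 := by positivity
    nlinarith
  -- the limit
  have hT : Tendsto (fun δ : ℝ => ∑ x ∈ B, ∑ y ∈ B, (cexp (((x - y) * τ : ℝ) * I) *
      (Lap b ((δ : ℂ) + ((x - y : ℝ) : ℂ) * I) / (Real.log (1 / δ) : ℝ))).re) (𝓝[>] 0)
      (𝓝 (∑ x ∈ B, ∑ y ∈ B, (cexp (((x - y) * τ : ℝ) * I) * ell K ε mm (x - y)).re)) := by
    refine tendsto_finset_sum _ fun x _ => tendsto_finset_sum _ fun y _ => ?_
    exact (continuous_re.tendsto _).comp ((hlim (x - y)).const_mul _)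
  have hT2 : Tendsto (fun δ : ℝ => -((B.card : ℝ) ^ 2 * M) / Real.log (1 / δ)) (𝓝[>] 0) (𝓝 0) :=
    hsmall _
  refine le_of_tendsto_of_tendsto hT2 hT ?_
  filter_upwards [hpos, hL.eventually_gt_atTop 0] with δ h1 h5
  have h2 := hIlow δ h1
  rw [hI δ h1] at h2
  have h3 : ∑ x ∈ B, ∑ y ∈ B, (cexp (((x - y) * τ : ℝ) * I) *
      (Lap b ((δ : ℂ) + ((x - y : ℝ) : ℂ) * I) / (Real.log (1 / δ) : ℝ))).re =
      (∑ x ∈ B, ∑ y ∈ B, (cexp (((x - y) * τ : ℝ) * I) * Lap b ((δ : ℂ) + ((x - y : ℝ) : ℂ) * I)).re) /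
        Real.log (1 / δ) := by
    rw [Finset.sum_div]
    refine Finset.sum_congr rfl fun x _ => ?_
    rw [Finset.sum_div]
    refine Finset.sum_congr rfl fun y _ => ?_
    rw [← mul_div_assoc, div_ofReal_re]
  rw [h3]
  gcongr

end Pool.Agent.Helper16.OM
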