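import Pool.Agent.Helper16.OM.Count
import Pool.Agent.Helper16.OM.Main

/-!
OM-8. `limsup log x · hs x ≥ n / (2 R)` if `F` has at least `n` zeros with `Re ρ ≥ 1`, `0 < |Im ρ| ≤ R`.
-/

set_option autoImplicit false

namespace Pool.Agent.Helper16.OM

open Complex Filter Topology MeasureTheory Set
open Pool.Agent.Helper13.Bsd Pool.Agent.Helper7.GW Pool.Agent.Helper58.BSD Pool.Agent.Helper29.MS

section

variable {v : ℝ → ℝ} {G : ℂ → ℂ} {A a η : ℝ}

theorem line_count (hS : Setup v G A a η) (r : ℕ) (g : ℝ) (hg0 : 0 < g)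
    (hg : Tendsto (fun y : ℝ => ‖G (y : ℂ)‖ / y ^ r) (𝓝[>] 0) (𝓝 g))
    (hint : ∀ x, 0 < x → LapInt v x) (mm : ℝ → ℕ) (hmm : Fac G mm)
    (ε : ℝ) (hε : ε = 1 ∨ ε = -1) (κ κ' : ℝ) (hκ0 : 0 ≤ κ) (hκκ' : κ < κ') (t0 : ℝ)
    (h : ∀ t, t0 < t → ε * (v t - r * Real.log t - (r * Real.eulerMascheroniConstant - Real.log g)) ≤ κ / t)
    (R : ℝ) (hR : 0 < R) (Z : Finset ℝ) (hZ : ∀ γ ∈ Z, γ ≠ 0 ∧ |γ| ≤ R) :
    (∑ γ ∈ Z, (mm γ : ℝ)) ≤ 2 * R * κ' := by
  obtain ⟨G1, hG1, hfac, hG10⟩ := factor_order hS r g hg0 hg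
  have hS0 := setup_reduce hS r G1 hG1 hfac
  have hη := hS.hη
  have h0 : (fun s => G1 s * (1 + s) ^ r) (0 : ℂ) ≠ 0 := by
    simp only [add_zero, one_pow, mul_one]
    rw [← norm_pos_iff, hG10]
    exact hg0
  have hkap : kap (fun s => G1 s * (1 + s) ^ r) = -Real.log g := by
    unfold kap
    simp only [add_zero, one_pow, mul_one]
    rw [hG10]
  have hint0 : ∀ x, 0 < x → LapInt (fun t => v t - r * ein t) x := fun x hx =>
    (hint x hx).sub ((lapInt_ein hx).const_mul _)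
  have hid0 := identity_continue hS0 0 le_rfl hint0
  have hopen : IsOpen {s : ℂ | -η < s.re} := isOpen_lt continuous_const continuous_re
  have hmem : ∀ μ : ℝ, (μ * I : ℂ) ∈ {s : ℂ | -η < s.re} := by
    intro μ
    show -η < (μ * I : ℂ).re
    simp
    linarith
  have hcont : ContinuousAt (fun s => G1 s * (1 + s) ^ r) (0 : ℂ) := by
    have h1 : (0 : ℂ) ∈ {s : ℂ | -η < s.re} := by
      have := hmem 0
      simpa using this
    exact (hS0.diff.differentiableAt (hopen.mem_nhds h1)).continuousAt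
  have hmm0 : Fac (fun s => G1 s * (1 + s) ^ r) mm := by
    intro μ hμ
    obtain ⟨gm, hga, hgm0, hgeq⟩ := hmm μ hμ
    have hμI : (μ * I : ℂ) ≠ 0 := mul_ne_zero (by exact_mod_cast hμ) I_ne_zero
    have h1I : (1 + μ * I : ℂ) ≠ 0 := by
      intro h1
      have := congrArg Complex.re h1
      simp at this
    refine ⟨fun w => gm w * (1 + w) ^ r / w ^ r, ?_, ?_, ?_⟩
    · refine AnalyticAt.div (hga.mul ?_) ?_ (pow_ne_zero _ hμI)
      · exact (analyticAt_const.add analyticAt_id).pow r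
      · exact analyticAt_id.pow r
    · exact div_ne_zero (mul_ne_zero hgm0 (pow_ne_zero _ h1I)) (pow_ne_zero _ hμI)
    · filter_upwards [hgeq, hopen.mem_nhds (hmem μ), isOpen_ne.mem_nhds hμI] with w h1 h2 h3
      have h4 := hfac w h2
      have h5 : w ^ r ≠ 0 := pow_ne_zero _ h3
      have h6 : G1 w = (w - μ * I) ^ mm μ * gm w / w ^ r := by
        rw [eq_div_iff h5, ← h1, h4]
        ring
      show G1 w * (1 + w) ^ r = _
      rw [h6]
      ring
  -- the comparison of the two functions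
  have hlim : Tendsto (fun t : ℝ => κ' * (1 - Real.exp (-t)) - r * (t * Real.exp (-t))) atTop
      (𝓝 (κ' * (1 - 0) - r * 0)) := by
    have e1 : Tendsto (fun t : ℝ => Real.exp (-t)) atTop (𝓝 0) :=
      Real.tendsto_exp_atBot.comp tendsto_neg_atTop_atBot
    have e2 : Tendsto (fun t : ℝ => t * Real.exp (-t)) atTop (𝓝 0) := by
      have := Real.tendsto_pow_mul_exp_neg_atTop_nhds_zero 1
      simpa using this
    exact ((e1.const_sub 1).const_mul κ').sub (e2.const_mul _)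
  have hev : ∀ᶠ t : ℝ in atTop, κ < κ' * (1 - Real.exp (-t)) - r * (t * Real.exp (-t)) :=
    hlim.eventually (lt_mem_nhds (by linarith))
  obtain ⟨t2, ht2⟩ := eventually_atTop.mp hev
  refine count_core hS0 hcont h0 hint0 hid0 mm hmm0 ε hε κ' (by linarith) (max t0 (max t2 1)) ?_ R hR Z hZ
  intro t ht
  have h1 : t0 < t := (le_max_left _ _).trans_lt ht
  have h2 : t2 < t := ((le_max_left _ _).trans (le_max_right _ _)).trans_lt ht
  have h3 : 1 < t := ((le_max_right _ _).trans (le_max_right _ _)).trans_lt ht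
  have ht0 : 0 < t := by linarith
  have h4 := ht2 t h2.le
  have h5 := h t h1
  obtain ⟨h6, h7⟩ := EinL2_bounds h3.le
  rw [hkap]
  have e : ε * (v t - r * ein t - -Real.log g) =
      ε * (v t - r * Real.log t - (r * Real.eulerMascheroniConstant - Real.log g)) -
        ε * (r * (ein t - Real.log t - Real.eulerMascheroniConstant)) := by ring
  have hr0 : (0 : ℝ) ≤ r := Nat.cast_nonneg r
  have h8 : -(ε * (r * (ein t - Real.log t - Real.eulerMascheroniConstant))) ≤ r * Real.exp (-t) := by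
    have e1 : r * (ein t - Real.log t - Real.eulerMascheroniConstant) ≤ r * Real.exp (-t) :=
      mul_le_mul_of_nonneg_left h7 hr0
    have e2 : 0 ≤ r * (ein t - Real.log t - Real.eulerMascheroniConstant) := mul_nonneg hr0 h6
    rcases hε with h' | h' <;> rw [h'] <;> linarith
  have h9 : κ' * k1 t = (κ' * (1 - Real.exp (-t))) / t := by
    rw [k1]; ring
  show ε * (v t - r * ein t - -Real.log g) ≤ κ' * k1 t
  rw [e, h9]
  have h10 : κ / t + r * Real.exp (-t) ≤ (κ' * (1 - Real.exp (-t))) / t := by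
    rw [le_div_iff₀ ht0, add_mul, div_mul_cancel₀ _ ht0.ne']
    nlinarith
  linarith

end

section

variable {N : ℕ → ℕ} {bad : ℕ → Prop} [DecidablePred bad]

theorem ord_ne_top_all (hN : NHyp N) (F : ℂ → ℂ) (hFd : Differentiable ℂ F)
    (hF : EulerB N bad F) (z : ℂ) : analyticOrderAt F z ≠ ⊤ := by
  intro h
  rw [analyticOrderAt_eq_top] at h
  have h0 : F = 0 := by
    have h1 : AnalyticOnNhd ℂ F Set.univ := fun z _ => hFd.analyticAt z
    have h2 := h1.eqOn_zero_of_preconnected_of_eventuallyEq_zero isPreconnected_univ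
      (Set.mem_univ z) h
    funext z
    exact h2 (Set.mem_univ z)
  have h1 := euler_identity N bad hN.one_le hN.bd F hF ((11 : ℝ) : ℂ)
    (by rw [ofReal_re]; norm_num)
  rw [Gf, h0] at h1
  simp only [Pi.zero_apply, zero_mul] at h1
  exact exp_ne_zero _ h1.symm

theorem GG_fac (hN : NHyp N) (F : ℂ → ℂ) (hFd : Differentiable ℂ F) (hF : EulerB N bad F) (w0 : ℂ)
    (hw0 : 0 ≤ w0.re) :
    ∃ g : ℂ → ℂ, AnalyticAt ℂ g w0 ∧ g w0 ≠ 0 ∧
      ∀ᶠ w in 𝓝 w0, GG N bad F w = (w - w0) ^ (analyticOrderNatAt F (1 + w0)) * g w := by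
  set R : ℂ → ℂ := fun w => (∏ p ∈ smallP, if bad (p : ℕ) then (1 : ℂ) else 1 - zz N p w) *
    cexp (-Rf N bad w) with hR
  have hGG : ∀ w, GG N bad F w = F (1 + w) * R w := by
    intro w
    simp only [hR]
    unfold GG Gf
    ring
  have hRa : AnalyticAt ℂ R w0 := by
    have h1 : Differentiable ℂ (fun w : ℂ => ∏ p ∈ smallP, if bad (p : ℕ) then (1 : ℂ) else 1 - zz N p w) := by
      apply Differentiable.fun_finsetProd
      intro p _
      split_ifs
      · exact differentiable_const _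
      · exact (differentiable_const _).sub (differentiable_zz N p p.2)
    have h2 : AnalyticAt ℂ (Rf N bad) w0 := by
      apply (differentiableOn_Rf (bad := bad) hN).analyticAt
      apply (isOpen_lt continuous_const continuous_re).mem_nhds
      show -(1 / 100 : ℝ) < w0.re
      linarith
    exact (h1.analyticAt w0).mul h2.neg.cexp
  have hR0 : R w0 ≠ 0 := by
    simp only [hR]
    refine mul_ne_zero (Finset.prod_ne_zero_iff.mpr ?_) (exp_ne_zero _)
    intro p _
    split_ifs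
    · exact one_ne_zero
    · exact one_sub_zz_ne_zero' N hN.one_le hN.le p p.2 w0 hw0
  have ht : Tendsto (fun w : ℂ => 1 + w) (𝓝 w0) (𝓝 (1 + w0)) := (continuous_const.add continuous_id).tendsto w0
  have hFan : AnalyticAt ℂ F (1 + w0) := hFd.analyticAt _
  obtain ⟨g, hga, hg0, hgeq⟩ := hFan.analyticOrderAt_ne_top.mp (ord_ne_top_all hN F hFd hF (1 + w0))
  refine ⟨fun w => g (1 + w) * R w, ?_, mul_ne_zero hg0 hR0, ?_⟩
  · refine AnalyticAt.mul ?_ hRa
    exact hga.comp_of_eq' (analyticAt_const.add analyticAt_id) rfl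
  · filter_upwards [ht.eventually hgeq] with w hw2
    rw [hGG w, hw2]
    have e : (1 + w) - (1 + w0) = w - w0 := by ring
    rw [e, smul_eq_mul, mul_assoc]

end

section

variable (W : WeierstrassCurve ℤ) (N : ℕ → ℕ)
    (hNdef : ∀ p : ℕ, N p = 1 + ((Finset.range p ×ˢ Finset.range p).filter
      (fun q : ℕ × ℕ => (p : ℤ) ∣ ((q.2 : ℤ) ^ 2 + W.a₁ * (q.1 : ℤ) * (q.2 : ℤ) + W.a₃ * (q.2 : ℤ)
        - ((q.1 : ℤ) ^ 3 + W.a₂ * (q.1 : ℤ) ^ 2 + W.a₄ * (q.1 : ℤ) + W.a₆)))).card)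

include hNdef in
/-- a one sided bound of order `1 / log x` bounds the number of zeros by a multiple of `R` -/
theorem bsd_count (hΔ : W.Δ ≠ 0) (F : ℂ → ℂ) (hFd : Differentiable ℂ F) (hF : EulerHyp W N F)
    (κ κ' : ℝ) (hκ0 : 0 ≤ κ) (hκκ' : κ < κ')
    (ε : ℝ) (hε : ε = 1 ∨ ε = -1) (hreal : ε = 1 ∨ ∀ σ : ℝ, 1 < σ → F (σ : ℂ) ≠ 0) (t0 : ℝ)
    (h : ∀ t, t0 < t → ε * hs W N F (Real.exp t) ≤ κ / t) (R : ℝ) (hR : 0 < R) (Z : Finset ℂ)
    (hZ : ∀ ρ ∈ Z, 1 ≤ ρ.re ∧ ρ.im ≠ 0 ∧ |ρ.im| ≤ R) :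
    (∑ ρ ∈ Z, (analyticOrderNatAt F ρ : ℝ)) ≤ 2 * R * κ' := by
  classical
  set κ1 := (κ + κ') / 2 with hκ1
  have hκκ1 : κ < κ1 := by rw [hκ1]; linarith
  have hκ1κ' : κ1 < κ' := by rw [hκ1]; linarith
  have hN := nhyp W N hNdef
  have hB : EulerB N (badW W) F := hF
  set r : ℕ := analyticOrderNatAt F 1 with hr
  obtain ⟨K, T, hK, hT, hLL⟩ := LL_upper W N hNdef hΔ F hFd hF
  -- the Laplace transform converges
  have hLint : ∀ x, 0 < x → LapInt (LL N (badW W)) x := by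
    apply lapInt_continue N (badW W) F hFd (hN_of W N hNdef) (ap_bound W N hNdef) hF 0 le_rfl
      (fun t => (κ + K) * (1 + t)) (by fun_prop) (fun x hx => lapInt_lin (κ + K) hx) ε hε (max t0 T)
    · intro t ht
      have h1 : t0 < t := (le_max_left _ _).trans_lt ht
      have h2 : T < t := (le_max_right _ _).trans_lt ht
      have h3 := hLL ε hε t h2.le
      have h4 := h t h1
      have ht1 : 1 ≤ t := by linarith
      have h5 : κ / t ≤ κ := div_le_self hκ0 ht1
      have h6 : (κ + K) * (1 + t) = κ + κ * t + K * (1 + t) := by ring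
      have h7 : 0 ≤ κ * t := by positivity
      show 0 ≤ (κ + K) * (1 + t) - ε * LL N (badW W) t
      rw [h6]
      linarith
    · rcases hreal with h' | h'
      · exact Or.inl h'
      · right
        intro x hx
        apply Gf_ne_zero_of W N hNdef F hx.le
        have := h' (1 + x) (by linarith)
        push_cast at this
        exact this
  obtain ⟨Ce, hCe, hCe2⟩ := ee_bdd (bad := badW W) hN
  have hint : ∀ x, 0 < x → LapInt (fun t => LL N (badW W) t - ee N (badW W) t) x := fun x hx =>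
    (hLint x hx).sub (lapInt_bdd measurable_ee hCe2 hx)
  obtain ⟨A, hS⟩ := bsd_setup hN F hFd hB
  obtain ⟨hg0, hg⟩ := GG_lead hN F hFd hB
  rw [← hr] at hg0 hg
  -- no zeros to the right of the line
  have hid := identity_continue hS 0 le_rfl hint
  have hright : ∀ ρ : ℂ, 1 < ρ.re → analyticOrderNatAt F ρ = 0 := by
    intro ρ hρ
    have hw : 0 < (ρ - 1).re := by
      rw [sub_re, one_re]
      linarith
    have h1 := hid (ρ - 1) hw
    have h2 : GG N (badW W) F (ρ - 1) ≠ 0 := by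
      rw [h1]
      exact exp_ne_zero _
    have h3 : F ρ ≠ 0 := by
      intro h4
      apply h2
      unfold GG Gf
      rw [add_sub_cancel, h4]
      simp
    rw [analyticOrderNatAt, (hFd.analyticAt ρ).analyticOrderAt_eq_zero.mpr h3]
    rfl
  -- the comparison
  obtain ⟨Kr, Tr, hKr, hTr, hrate⟩ := ee_rate2 (bad := badW W) hN (finite_bad W hΔ)
  have hlim : Tendsto (fun t : ℝ => κ1 - Kr * (t * Real.exp (-(47 / 200 * t)))) atTop
      (𝓝 (κ1 - Kr * 0)) := by
    have e1 : Tendsto (fun t : ℝ => t * Real.exp (-(47 / 200 * t))) atTop (𝓝 0) := by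
      have h1 := (Real.tendsto_pow_mul_exp_neg_atTop_nhds_zero 1).comp
        (tendsto_id.const_mul_atTop (show (0 : ℝ) < 47 / 200 by norm_num))
      have h2 := h1.const_mul (200 / 47)
      rw [mul_zero] at h2
      refine h2.congr fun t => ?_
      simp only [Function.comp, id, pow_one]
      ring
    exact (e1.const_mul Kr).const_sub κ1
  have hev : ∀ᶠ t : ℝ in atTop, κ < κ1 - Kr * (t * Real.exp (-(47 / 200 * t))) :=
    hlim.eventually (lt_mem_nhds (by linarith))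
  obtain ⟨t2, ht2⟩ := eventually_atTop.mp hev
  have hFac : Fac (GG N (badW W) F) (fun μ => analyticOrderNatAt F (1 + μ * I)) := fun μ _ =>
    GG_fac hN F hFd hB (μ * I) (by simp)
  -- the zeros on the line
  set Z1 : Finset ℂ := Z.filter (fun ρ => ρ.re = 1) with hZ1
  have hsum1 : ∑ ρ ∈ Z, (analyticOrderNatAt F ρ : ℝ) = ∑ ρ ∈ Z1, (analyticOrderNatAt F ρ : ℝ) := by
    rw [hZ1, Finset.sum_filter]
    refine Finset.sum_congr rfl fun ρ hρ => ?_
    split_ifs with h1
    · rfl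
    · have h2 := (hZ ρ hρ).1
      rw [hright ρ (lt_of_le_of_ne h2 (Ne.symm h1)), Nat.cast_zero]
  have hform : ∀ ρ ∈ Z1, (1 + (ρ.im : ℂ) * I) = ρ := by
    intro ρ hρ
    have h1 : ρ.re = 1 := (Finset.mem_filter.mp hρ).2
    apply Complex.ext
    · simp [h1]
    · simp
  have hinj : Set.InjOn Complex.im (Z1 : Set ℂ) := by
    intro x hx y hy hxy
    have hx' := hform x hx
    have hy' := hform y hy
    rw [← hx', ← hy', hxy]
  have hsum2 : ∑ ρ ∈ Z1, (analyticOrderNatAt F ρ : ℝ) =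
      ∑ γ ∈ Z1.image Complex.im, (analyticOrderNatAt F (1 + γ * I) : ℝ) := by
    rw [Finset.sum_image hinj]
    refine Finset.sum_congr rfl fun ρ hρ => ?_
    rw [hform ρ hρ]
  rw [hsum1, hsum2]
  have hZ' : ∀ γ ∈ Z1.image Complex.im, γ ≠ 0 ∧ |γ| ≤ R := by
    intro γ hγ
    obtain ⟨ρ, hρ, rfl⟩ := Finset.mem_image.mp hγ
    exact (hZ ρ (Finset.mem_filter.mp hρ).1).2
  refine line_count hS r _ hg0 hg hint (fun μ => analyticOrderNatAt F (1 + μ * I)) hFac ε hε κ1 κ'
    (by linarith) hκ1κ' (max t0 (max t2 Tr)) ?_ R hR (Z1.image Complex.im) hZ'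
  intro t ht
  have h1 : t0 < t := (le_max_left _ _).trans_lt ht
  have h2 : t2 < t := ((le_max_left _ _).trans (le_max_right _ _)).trans_lt ht
  have h3 : Tr < t := ((le_max_right _ _).trans (le_max_right _ _)).trans_lt ht
  have ht0 : 0 < t := by linarith
  have h4 := ht2 t h2.le
  have h5 := h t h1
  have h6 := hrate t h3.le
  have h7 := hs_exp W N hNdef hΔ F hFd hF t ht0
  rw [log_kon W N hNdef hΔ F hFd hF, ← hr] at h7
  set g : ℝ := ‖iteratedDeriv r F 1‖ / (r.factorial : ℝ) * Real.exp (E0 N (badW W)) with hgdef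
  have e : ε * (LL N (badW W) t - ee N (badW W) t - r * Real.log t
      - (r * Real.eulerMascheroniConstant - Real.log g)) =
      ε * hs W N F (Real.exp t) - ε * (ee N (badW W) t + TTb N (badW W) (Real.exp t) - E0 N (badW W)) := by
    rw [h7]
    ring
  rw [e]
  have h8 : -(ε * (ee N (badW W) t + TTb N (badW W) (Real.exp t) - E0 N (badW W))) ≤
      Kr * Real.exp (-(47 / 200 * t)) := by
    rw [abs_le] at h6
    rcases hε with h' | h' <;> rw [h'] <;> linarith [h6.1, h6.2]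
  have h9 : κ / t + Kr * Real.exp (-(47 / 200 * t)) ≤ κ1 / t := by
    rw [le_div_iff₀ ht0, add_mul, div_mul_cancel₀ _ ht0.ne']
    nlinarith
  linarith

include hNdef in
/-- `limsup log x · hs x ≥ n / (2 R)` and `liminf log x · hs x ≤ - n / (2 R)` -/
theorem osc_count (hΔ : W.Δ ≠ 0) (F : ℂ → ℂ) (hFd : Differentiable ℂ F) (hF : EulerHyp W N F)
    (R : ℝ) (hR : 0 < R) (Z : Finset ℂ) (hZ : ∀ ρ ∈ Z, 1 ≤ ρ.re ∧ ρ.im ≠ 0 ∧ |ρ.im| ≤ R)
    (K : ℝ) (hK0 : 0 ≤ K) (hK : 2 * R * K < ∑ ρ ∈ Z, (analyticOrderNatAt F ρ : ℝ)) :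
    (∃ᶠ x : ℝ in atTop, K / Real.log x ≤ hs W N F x) ∧
    ((∀ β : ℝ, 1 < β → F (β : ℂ) ≠ 0) → ∃ᶠ x : ℝ in atTop, hs W N F x ≤ -(K / Real.log x)) := by
  have key : ∀ ε : ℝ, (ε = 1 ∨ ε = -1) → (ε = 1 ∨ ∀ β : ℝ, 1 < β → F (β : ℂ) ≠ 0) → ∀ x1 : ℝ,
      (∀ x, x1 ≤ x → ε * hs W N F x ≤ K / Real.log x) → False := by
    intro ε hε hreal x1 hx1
    set s : ℝ := ∑ ρ ∈ Z, (analyticOrderNatAt F ρ : ℝ) with hs'
    have hR2 : 0 < 2 * R := by positivity
    have hKs : K < s / (2 * R) := by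
      rw [lt_div_iff₀ hR2]
      linarith
    have h1 := bsd_count W N hNdef hΔ F hFd hF K ((K + s / (2 * R)) / 2) hK0 (by linarith) ε hε hreal
      (Real.log (max x1 1)) ?_ R hR Z hZ
    · have h2 : 2 * R * ((K + s / (2 * R)) / 2) < 2 * R * (s / (2 * R)) :=
        mul_lt_mul_of_pos_left (by linarith) hR2
      rw [mul_div_cancel₀ _ hR2.ne'] at h2
      linarith
    intro t ht
    have h3 : max x1 1 < Real.exp t := (Real.log_lt_iff_lt_exp (by positivity)).mp ht
    have h4 := hx1 _ ((le_max_left _ _).trans h3.le)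
    rw [Real.log_exp] at h4
    exact h4
  constructor
  · intro hcon
    obtain ⟨x1, hx1⟩ := eventually_atTop.mp hcon
    refine key 1 (Or.inl rfl) (Or.inl rfl) x1 fun x hx => ?_
    have := hx1 x hx
    rw [not_le] at this
    linarith
  · intro hreal hcon
    obtain ⟨x1, hx1⟩ := eventually_atTop.mp hcon
    refine key (-1) (Or.inr rfl) (Or.inr hreal) x1 fun x hx => ?_
    have := hx1 x hx
    rw [not_le] at this
    linarith

end

end Pool.Agent.Helper16.OM
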