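import Pool.Agent.Helper16.OM.Core

/-!
OM-5. The behaviour of `w Lap v w = - log G w` at a boundary zero of order `m`.
-/

set_option autoImplicit false

namespace Pool.Agent.Helper16.OM

open Complex Filter Topology MeasureTheory Set
open Pool.Agent.Helper13.Bsd Pool.Agent.Helper7.GW Pool.Agent.Helper58.BSD Pool.Agent.Helper29.MS

variable {v : ℝ → ℝ} {G : ℂ → ℂ} {A a η : ℝ}

theorem L_asymp (hv : Measurable v) (hint : ∀ x, 0 < x → LapInt v x)
    (hid : ∀ w : ℂ, 0 < w.re → G w = cexp (-(w * Lap v w))) (μ : ℝ) (m : ℕ) (g : ℂ → ℂ)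
    (hg : AnalyticAt ℂ g (μ * I)) (hg0 : g (μ * I) ≠ 0)
    (heq : ∀ᶠ w in 𝓝 (μ * I : ℂ), G w = (w - μ * I) ^ m * g w) :
    ∃ C : ℝ, 0 ≤ C ∧ ∀ᶠ δ : ℝ in 𝓝[>] 0,
      ‖((δ : ℂ) + μ * I) * Lap v ((δ : ℂ) + μ * I) - m * Real.log (1 / δ)‖ ≤ C := by
  obtain ⟨w0, hw0⟩ : ∃ w0 : ℂ, w0 = μ * I := ⟨_, rfl⟩
  rw [← hw0] at hg hg0 heq
  have hw0re : w0.re = 0 := by rw [hw0]; simp
  have hgc : Tendsto (fun w => g w / g w0) (𝓝 w0) (𝓝 1) := by
    have h1 := hg.continuousAt.tendsto.div_const (g w0)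
    rwa [div_self hg0] at h1
  have hball : ∀ᶠ w in 𝓝 w0, ‖g w / g w0 - 1‖ < 1 := by
    have h1 := (hgc.sub_const 1).norm
    rw [sub_self, norm_zero] at h1
    exact h1.eventually (gt_mem_nhds one_pos)
  have hlog : ∀ᶠ w in 𝓝 w0, ‖Complex.log (g w / g w0)‖ < 1 := by
    have h1 : Tendsto (fun w => Complex.log (g w / g w0)) (𝓝 w0) (𝓝 (Complex.log 1)) :=
      (continuousAt_clog (by simp)).tendsto.comp hgc
    rw [Complex.log_one] at h1
    have h2 := h1.norm
    rw [norm_zero] at h2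
    exact h2.eventually (gt_mem_nhds one_pos)
  have hdiff : ∀ᶠ w in 𝓝 w0, DifferentiableAt ℂ g w := hg.eventually_analyticAt.mono fun w hw =>
    hw.differentiableAt
  obtain ⟨r, hr0, hr⟩ := Metric.eventually_nhds_iff_ball.1 (heq.and (hball.and (hlog.and hdiff)))
  set U : Set ℂ := Metric.ball w0 r ∩ {w : ℂ | 0 < w.re} with hU
  have hUo : IsOpen U := Metric.isOpen_ball.inter (isOpen_lt continuous_const continuous_re)
  have hUc : IsPreconnected U := ((convex_ball _ _).inter (convex_halfSpace_re_gt 0)).isPreconnected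
  set H : ℂ → ℂ := fun w => -(w * Lap v w) - m * Complex.log (w - w0) - Complex.log (g w / g w0) with hH
  have hsub : ∀ w ∈ U, w - w0 ∈ slitPlane := by
    intro w hw
    rw [mem_slitPlane_iff]
    left
    rw [sub_re, hw0re, sub_zero]
    exact hw.2
  have hslit : ∀ w ∈ U, g w / g w0 ∈ slitPlane := by
    intro w hw
    have h1 := (hr w hw.1).2.1
    have h2 : g w / g w0 = 1 + (g w / g w0 - 1) := by ring
    rw [h2]
    exact mem_slitPlane_of_norm_lt_one h1
  have hHd : DifferentiableOn ℂ H U := by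
    intro w hw
    apply DifferentiableAt.differentiableWithinAt
    have h1 : DifferentiableAt ℂ (Lap v) w :=
      (differentiableOn_Lap hv 0 hint).differentiableAt
        ((isOpen_lt continuous_const continuous_re).mem_nhds hw.2)
    have h2 : DifferentiableAt ℂ (fun w => Complex.log (w - w0)) w :=
      (differentiableAt_id.sub_const w0).clog (hsub w hw)
    have h3 : DifferentiableAt ℂ (fun w => Complex.log (g w / g w0)) w :=
      ((hr w hw.1).2.2.2.div_const _).clog (hslit w hw)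
    exact ((differentiableAt_id.mul h1).neg.sub (h2.const_mul _)).sub h3
  have hexp : ∀ w ∈ U, cexp (H w) = g w0 := by
    intro w hw
    have h0 := slitPlane_ne_zero (hsub w hw)
    have h1 := slitPlane_ne_zero (hslit w hw)
    have h2 : g w ≠ 0 := by
      intro h
      rw [h, zero_div] at h1
      exact h1 rfl
    simp only [hH]
    rw [exp_sub, exp_sub, ← hid w hw.2, exp_log h1, Complex.exp_nat_mul, exp_log h0, (hr w hw.1).1]
    field_simp
  set w1 : ℂ := ((r / 2 : ℝ) : ℂ) + w0 with hw1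
  have hw1U : w1 ∈ U := by
    refine ⟨?_, ?_⟩
    · rw [Metric.mem_ball, dist_eq_norm, hw1, add_sub_cancel_right, norm_real, Real.norm_eq_abs,
        abs_of_pos (by positivity)]
      linarith
    · show 0 < w1.re
      rw [hw1, add_re, ofReal_re, hw0re]
      linarith
  refine ⟨‖H w1‖ + 1, by positivity, ?_⟩
  have hpos : ∀ᶠ δ : ℝ in 𝓝[>] 0, (0 : ℝ) < δ := self_mem_nhdsWithin
  have hlt : ∀ᶠ δ : ℝ in 𝓝[>] 0, δ < r :=
    (gt_mem_nhds hr0 : ∀ᶠ x : ℝ in 𝓝 0, x < r).filter_mono nhdsWithin_le_nhds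
  filter_upwards [hpos, hlt] with δ h1 h2
  rw [← hw0]
  set w : ℂ := (δ : ℂ) + w0 with hw
  have hwU : w ∈ U := by
    refine ⟨?_, ?_⟩
    · rw [Metric.mem_ball, dist_eq_norm, hw, add_sub_cancel_right, norm_real, Real.norm_eq_abs,
        abs_of_pos h1]
      exact h2
    · show 0 < w.re
      rw [hw, add_re, ofReal_re, hw0re]
      linarith
  have h3 := const_of_exp hUo hUc hHd hexp hwU hw1U
  have h4 : w - w0 = (δ : ℂ) := by rw [hw]; ring
  have h5 : w * Lap v w - m * Real.log (1 / δ) = -H w1 - Complex.log (g w / g w0) := by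
    rw [← h3]
    simp only [hH]
    rw [h4, ← ofReal_log h1.le, one_div, Real.log_inv]
    push_cast
    ring
  rw [h5]
  have h6 := (hr w hwU.1).2.2.1
  calc ‖-H w1 - Complex.log (g w / g w0)‖ ≤ ‖-H w1‖ + ‖Complex.log (g w / g w0)‖ := norm_sub_le _ _
    _ ≤ ‖H w1‖ + 1 := by rw [norm_neg]; linarith

end Pool.Agent.Helper16.OM
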