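import Pool.Agent.Helper29.MS.Base
import Pool.Agent.Helper13.Bsd.Omega

/-!
OM-1. Oscillation at a zero on the boundary of the half plane (the case `θ = 0` of `omega_core`).
-/

set_option autoImplicit false

namespace Pool.Agent.Helper16.OM

open Complex Filter Topology MeasureTheory Set
open Pool.Agent.Helper13.Bsd Pool.Agent.Helper7.GW Pool.Agent.Helper58.BSD

variable {v : ℝ → ℝ} {G : ℂ → ℂ} {A a η : ℝ}

theorem log_norm_bound (hS : Setup v G A a η) (hG0 : G 0 ≠ 0) :
    ∃ C : ℝ, 0 ≤ C ∧ ∀ᶠ δ : ℝ in 𝓝[>] 0, |Real.log ‖G (δ : ℂ)‖ - Real.log ‖G 0‖| ≤ C * δ := by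
  have hη := hS.hη
  have hd : DifferentiableAt ℂ G 0 := by
    apply hS.diff.differentiableAt
    apply (isOpen_lt continuous_const continuous_re).mem_nhds
    show -η < (0 : ℂ).re
    rw [zero_re]; linarith
  obtain ⟨c, hc⟩ := hd.isBigO_sub.bound
  have hg : 0 < ‖G 0‖ := norm_pos_iff.mpr hG0
  have hre : Tendsto (fun y : ℝ => (y : ℂ)) (𝓝[>] 0) (𝓝 (0 : ℂ)) := by
    have h1 : Tendsto (fun y : ℝ => (y : ℂ)) (𝓝 0) (𝓝 ((0 : ℝ) : ℂ)) :=
      continuous_ofReal.tendsto 0
    rw [ofReal_zero] at h1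
    exact h1.mono_left nhdsWithin_le_nhds
  have hpos : ∀ᶠ δ : ℝ in 𝓝[>] 0, (0 : ℝ) < δ := self_mem_nhdsWithin
  set K : ℝ := |c| / ‖G 0‖ with hK
  have hK0 : 0 ≤ K := by positivity
  have hsmall : ∀ᶠ δ : ℝ in 𝓝[>] 0, K * δ < 1 / 2 := by
    have h1 : Tendsto (fun δ : ℝ => K * δ) (𝓝[>] 0) (𝓝 (K * 0)) :=
      ((continuous_const.mul continuous_id).tendsto 0).mono_left nhdsWithin_le_nhds
    rw [mul_zero] at h1
    exact h1.eventually (gt_mem_nhds (by norm_num))
  refine ⟨2 * K, by positivity, ?_⟩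
  filter_upwards [hre.eventually hc, hpos, hsmall] with δ h1 h2 h3
  rw [sub_zero, norm_real, Real.norm_eq_abs, abs_of_pos h2] at h1
  have h4 : ‖G (δ : ℂ) - G 0‖ ≤ |c| * δ := h1.trans (by gcongr; exact le_abs_self c)
  have h5 : |‖G (δ : ℂ)‖ - ‖G 0‖| ≤ |c| * δ := (abs_norm_sub_norm_le _ _).trans h4
  set y : ℝ := ‖G (δ : ℂ)‖ / ‖G 0‖ with hy
  have h6 : |y - 1| ≤ K * δ := by
    have e : y - 1 = (‖G (δ : ℂ)‖ - ‖G 0‖) / ‖G 0‖ := by
      rw [hy]; field_simp
    rw [e, abs_div, abs_of_pos hg, hK, div_mul_eq_mul_div]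
    gcongr
  have h7 := abs_le.mp h6
  have hy0 : 1 / 2 < y := by linarith
  have hypos : 0 < y := by linarith
  have hGpos : 0 < ‖G (δ : ℂ)‖ := by
    have : ‖G (δ : ℂ)‖ = y * ‖G 0‖ := by rw [hy]; field_simp
    rw [this]; positivity
  have e2 : Real.log ‖G (δ : ℂ)‖ - Real.log ‖G 0‖ = Real.log y := by
    rw [hy, Real.log_div hGpos.ne' hg.ne']
  rw [e2, abs_le]
  constructor
  · have h8 := Real.one_sub_inv_le_log_of_pos hypos
    have h9 : 1 - y⁻¹ = (y - 1) / y := by field_simp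
    have h10 : -(2 * K * δ) ≤ (y - 1) / y := by
      rw [le_div_iff₀ hypos]
      have : 0 ≤ K * δ := by positivity
      nlinarith
    linarith
  · have h8 := Real.log_le_sub_one_of_pos hypos
    have : 0 ≤ K * δ := by positivity
    linarith

theorem lapInt_const (c : ℝ) {x : ℝ} (hx : 0 < x) : LapInt (fun _ => c) x := by
  unfold LapInt
  exact (exp_neg_integrableOn_Ioi 0 hx).const_mul c

theorem int_const (c : ℝ) {x : ℝ} (hx : 0 < x) :
    ∫ t in Ioi (0 : ℝ), c * Real.exp (-x * t) = c / x := by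
  rw [integral_const_mul]
  have h1 := integral_exp_mul_Ioi (a := -x) (by linarith) 0
  rw [h1, mul_zero, Real.exp_zero]
  field_simp

theorem line_core (hS : Setup v G A a η) (hG0 : G 0 ≠ 0) (hint : ∀ x, 0 < x → LapInt v x)
    (hid : ∀ w : ℂ, 0 < w.re → G w = cexp (-(w * Lap v w)))
    (γ : ℝ) (hγ : γ ≠ 0) (m : ℕ) (CG : ℝ) (hCG : 0 < CG)
    (hord : ∀ᶠ δ : ℝ in 𝓝[>] 0, ‖G ((δ : ℂ) + γ * I)‖ ≤ CG * δ ^ m)
    (ε : ℝ) (hε : ε = 1 ∨ ε = -1)
    (κ : ℝ) (hκ0 : 0 ≤ κ) (hκ : κ * |γ| < m) (t0 : ℝ)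
    (h : ∀ t, t0 < t → ε * (v t - kap G) ≤ κ * k1 t) : False := by
  have hLm := hS.grow.meas
  obtain ⟨c, hc⟩ : ∃ c, c = kap G := ⟨_, rfl⟩
  rw [← hc] at h
  set g : ℝ → ℝ := fun t => κ * (Real.exp (0 * t) * k1 t) with hg
  have hg1m : Measurable (fun t => Real.exp (0 * t) * k1 t) :=
    (by fun_prop : Measurable fun t : ℝ => Real.exp (0 * t)).mul measurable_k1
  have hgm : Measurable g := hg1m.const_mul κ
  have hgi : ∀ x, 0 < x → LapInt g x := fun x hx => (LapInt_k1 hx).const_mul κ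
  set u : ℝ → ℝ := fun t => v t - c with hu
  have hum : Measurable u := hLm.sub measurable_const
  have huint : ∀ x, 0 < x → LapInt u x := fun x hx => (hint x hx).sub (lapInt_const c hx)
  -- the function b
  set b : ℝ → ℝ := fun t => g t - ε * u t with hb
  have hbm : Measurable b := hgm.sub (hum.const_mul ε)
  have hbint : ∀ x, 0 < x → LapInt b x := fun x hx => (hgi x hx).sub ((huint x hx).const_mul ε)
  set ind : ℝ → ℝ := (Iic t0).indicator (fun t => |b t|) with hind
  have habsb : ∀ x, 0 < x → LapInt (fun t => |b t|) x := by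
    intro x hx
    have hf := hbint x hx
    unfold LapInt at *
    refine hf.norm.congr ?_
    filter_upwards with t
    rw [norm_mul, Real.norm_eq_abs, Real.norm_eq_abs, Real.abs_exp]
  have hindint : ∀ x, LapInt ind x := fun x =>
    (habsb 1 one_pos).indicator_Iic hbm.abs t0 x
  have hindnn : ∀ t, 0 ≤ ind t := fun t => indicator_nonneg (fun _ _ => abs_nonneg _) t
  set B := ∫ t in Ioi (0 : ℝ), ind t * Real.exp (-0 * t) with hB
  have hB0 : 0 ≤ B :=
    setIntegral_nonneg measurableSet_Ioi fun t _ => mul_nonneg (hindnn t) (Real.exp_pos _).le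
  have hindB : ∀ x, 0 < x → ∫ t in Ioi (0 : ℝ), ind t * Real.exp (-x * t) ≤ B := by
    intro x hx
    apply setIntegral_mono_on (hindint x) (hindint 0) measurableSet_Ioi
    intro t ht
    have ht' : 0 < t := ht
    apply mul_le_mul_of_nonneg_left _ (hindnn t)
    rw [Real.exp_le_exp]
    nlinarith
  have hbabs : ∀ t, |b t| ≤ b t + 2 * ind t := by
    intro t
    by_cases ht : t ∈ Iic t0
    · rw [hind, indicator_of_mem ht]
      have := neg_abs_le (b t)
      linarith
    · rw [hind, indicator_of_notMem ht]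
      have h1 : t0 < t := by simpa using ht
      have h2 := h t h1
      have h3 : 0 ≤ b t := by
        simp only [hb, hg, hu, zero_mul, Real.exp_zero, one_mul]
        linarith
      rw [abs_of_nonneg h3]
      linarith
  -- real integrals
  set J : ℝ → ℝ := fun x => ∫ t in Ioi (0 : ℝ), v t * Real.exp (-x * t) with hJ
  have hux : ∀ x, 0 < x → ∫ t in Ioi (0 : ℝ), u t * Real.exp (-x * t) = J x - c / x := by
    intro x hx
    have h1 : ∀ t, u t * Real.exp (-x * t) = v t * Real.exp (-x * t) - c * Real.exp (-x * t) := by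
      intro t
      simp only [hu]
      ring
    simp_rw [h1]
    rw [integral_sub (hint x hx) (lapInt_const c hx), int_const c hx]
  have hbx : ∀ x, 0 < x → ∫ t in Ioi (0 : ℝ), b t * Real.exp (-x * t)
      = κ * Real.log ((x - 0 + 1) / (x - 0)) - ε * (J x - c / x) := by
    intro x hx
    have h1 : ∀ t, b t * Real.exp (-x * t) = κ * ((Real.exp (0 * t) * k1 t) * Real.exp (-x * t))
        - ε * (u t * Real.exp (-x * t)) := by
      intro t
      simp only [hb, hg]
      ring
    simp_rw [h1]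
    rw [integral_sub, integral_const_mul, integral_const_mul, Lap_k1_real 0 x hx, hux x hx]
    · exact Integrable.const_mul (LapInt_k1 hx) _
    · exact Integrable.const_mul (huint x hx) _
  have hbw : ∀ w : ℂ, 0 < w.re → ‖Lap b w‖
      ≤ (κ * Real.log ((w.re - 0 + 1) / (w.re - 0)) - ε * (J w.re - c / w.re)) + 2 * B := by
    intro w hw
    calc ‖Lap b w‖ ≤ ∫ t in Ioi (0 : ℝ), ‖(b t : ℂ) * cexp (-w * t)‖ := norm_integral_le_integral_norm _
      _ = ∫ t in Ioi (0 : ℝ), |b t| * Real.exp (-w.re * t) := by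
          congr 1
          funext t
          rw [norm_mul, norm_real, norm_exp, Real.norm_eq_abs]
          simp
      _ ≤ ∫ t in Ioi (0 : ℝ), (b t * Real.exp (-w.re * t) + 2 * (ind t * Real.exp (-w.re * t))) := by
          apply setIntegral_mono_on (habsb _ hw)
            ((hbint _ hw).add (Integrable.const_mul (hindint _) 2)) measurableSet_Ioi
          intro t _
          have h1 := mul_le_mul_of_nonneg_right (hbabs t) (Real.exp_pos (-w.re * t)).le
          have h2 : (b t + 2 * ind t) * Real.exp (-w.re * t)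
              = b t * Real.exp (-w.re * t) + 2 * (ind t * Real.exp (-w.re * t)) := by ring
          rw [h2] at h1
          exact h1
      _ = (∫ t in Ioi (0 : ℝ), b t * Real.exp (-w.re * t))
          + 2 * ∫ t in Ioi (0 : ℝ), ind t * Real.exp (-w.re * t) := by
          rw [integral_add (hbint _ hw) (Integrable.const_mul (hindint _) 2), integral_const_mul]
      _ ≤ _ := by
          rw [hbx _ hw]
          have := hindB w.re hw
          linarith
  -- norms of G
  have hnormG : ∀ w : ℂ, 0 < w.re → ‖G w‖ = Real.exp (-(w * Lap v w).re) := by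
    intro w hw
    rw [hid w hw, norm_exp, neg_re]
  have hnormGx : ∀ x : ℝ, 0 < x → ‖G (x : ℂ)‖ = Real.exp (-(x * J x)) := by
    intro x hx
    rw [hnormG (x : ℂ) (by rw [ofReal_re]; exact hx), re_Lap_ofReal, ← ofReal_mul, ofReal_re]
  obtain ⟨C1, hC10, ev3⟩ := log_norm_bound hS hG0
  -- the log comparison
  have hlogb : ∀ δ : ℝ, 0 < δ → δ < 1 → Real.log ((δ - 0 + 1) / (δ - 0)) ≤ Real.log (1 / δ) + 1 := by
    intro δ h1 h2
    have e : (δ - 0 + 1) / (δ - 0) = (1 / δ) * (1 + δ) := by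
      rw [sub_zero]
      field_simp
      ring
    rw [e, Real.log_mul (by positivity) (by positivity)]
    have := Real.log_le_sub_one_of_pos (show 0 < 1 + δ by linarith)
    linarith
  have hγ0 : 0 < |γ| := abs_pos.mpr hγ
  -- main inequality
  have main : ∀ᶠ δ : ℝ in 𝓝[>] 0, m * Real.log (1 / δ) - (|Real.log CG| + |c|)
      ≤ ‖(δ : ℂ) + γ * I‖ * (κ * Real.log (1 / δ) + (κ + C1 + 2 * B + κ * (1 / |γ|))) := by
    have hpos : ∀ᶠ δ : ℝ in 𝓝[>] 0, (0 : ℝ) < δ := self_mem_nhdsWithin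
    have hlt1 : ∀ᶠ δ : ℝ in 𝓝[>] 0, δ < 1 :=
      (gt_mem_nhds one_pos : ∀ᶠ x : ℝ in 𝓝 0, x < 1).filter_mono nhdsWithin_le_nhds
    filter_upwards [hpos, hlt1, ev3, hord] with δ h1 h2 h4 h5
    set w : ℂ := (δ : ℂ) + γ * I with hw
    have hwre : w.re = δ := by rw [hw]; simp
    have hwim : w.im = γ := by rw [hw]; simp
    have hw0 : 0 < w.re := by rw [hwre]; linarith
    rw [hnormG w hw0] at h5
    have h6 := Real.log_le_log (Real.exp_pos _) h5
    rw [Real.log_exp, Real.log_mul hCG.ne' (by positivity), Real.log_pow] at h6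
    have h8 := le_abs_self (Real.log CG)
    have hlog1 : Real.log (1 / δ) = -Real.log δ := by
      rw [one_div, Real.log_inv]
    -- lower bound for `w * Lap v w`
    have h9 : m * Real.log (1 / δ) - |Real.log CG| ≤ (w * Lap v w).re := by
      rw [hlog1]
      linarith
    have hLu : Lap u w = Lap v w - c / w := by
      have e1 : Lap (fun _ : ℝ => c) w = c / w := by
        unfold Lap
        rw [integral_const_mul]
        have hre : (-w).re < 0 := by rw [neg_re]; linarith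
        have h10 := integral_exp_mul_complex_Ioi hre 0
        rw [h10, ofReal_zero, mul_zero, exp_zero, neg_div_neg_eq, mul_one_div]
      rw [hu, Lap_sub hLm measurable_const (hint _ hw0) (lapInt_const c hw0), e1]
    have hwne : w ≠ 0 := by
      intro h0
      rw [h0, zero_re] at hw0
      exact lt_irrefl _ hw0
    have h10 : m * Real.log (1 / δ) - (|Real.log CG| + |c|) ≤ ‖w * Lap u w‖ := by
      have e1 : w * Lap u w = w * Lap v w - c := by
        rw [hLu]; field_simp
      have h11 := re_le_norm (w * Lap u w)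
      rw [e1] at h11 ⊢
      rw [sub_re, ofReal_re] at h11
      have := le_abs_self c
      linarith
    -- upper bound for `Lap u w`
    have h12 : ‖Lap u w‖ ≤ ‖Lap b w‖ + κ * (1 / |γ|) := by
      have hLb : Lap b w = Lap g w - ε * Lap u w := by
        have e3 : Lap (fun x => ε * u x) w = ε * Lap u w := Lap_const_mul u ε w
        rw [hb, Lap_sub hgm (hum.const_mul ε) (hgi _ hw0) ((huint _ hw0).const_mul ε), e3]
      have hgw : ‖Lap g w‖ ≤ κ * (1 / |γ|) := by
        rw [hg, Lap_const_mul, norm_mul, norm_real, Real.norm_eq_abs, abs_of_nonneg hκ0]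
        have h13 := norm_Lap_k1_le 0 w hw0 (by rw [hwim]; exact hγ)
        rw [hwim] at h13
        exact mul_le_mul_of_nonneg_left h13 hκ0
      have hεn : ‖(ε : ℂ)‖ = 1 := by
        rcases hε with h' | h' <;> rw [h'] <;> simp
      have e1 : ‖Lap u w‖ = ‖(ε : ℂ) * Lap u w‖ := by rw [norm_mul, hεn, one_mul]
      have e2 : (ε : ℂ) * Lap u w = Lap g w - Lap b w := by rw [hLb]; ring
      rw [e1, e2]
      exact (norm_sub_le _ _).trans (by linarith)
    have h14 := hbw w hw0
    rw [hwre] at h14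
    have h15 := hlogb δ h1 h2
    have h16 : κ * Real.log ((δ - 0 + 1) / (δ - 0)) ≤ κ * (Real.log (1 / δ) + 1) :=
      mul_le_mul_of_nonneg_left h15 hκ0
    have h17 : -(ε * (J δ - c / δ)) ≤ C1 := by
      have e1 : J δ - c / δ = -(Real.log ‖G (δ : ℂ)‖ - Real.log ‖G 0‖) / δ := by
        rw [hnormGx δ h1, Real.log_exp, hc, kap]
        field_simp
        ring
      have e2 : |J δ - c / δ| ≤ C1 := by
        rw [e1, abs_div, abs_neg, abs_of_pos h1, div_le_iff₀ h1]
        exact h4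
      have h18 := abs_le.mp e2
      rcases hε with h' | h' <;> rw [h'] <;> linarith
    have h19 : ‖Lap u w‖ ≤ κ * Real.log (1 / δ) + (κ + C1 + 2 * B + κ * (1 / |γ|)) := by
      linarith
    calc m * Real.log (1 / δ) - (|Real.log CG| + |c|) ≤ ‖w * Lap u w‖ := h10
      _ = ‖w‖ * ‖Lap u w‖ := norm_mul _ _
      _ ≤ _ := mul_le_mul_of_nonneg_left h19 (norm_nonneg _)
  -- the limit
  have hL : Tendsto (fun δ : ℝ => Real.log (1 / δ)) (𝓝[>] 0) atTop := by
    have h1 : Tendsto (fun δ : ℝ => 1 / δ) (𝓝[>] 0) atTop := by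
      simp_rw [one_div]
      exact tendsto_inv_nhdsGT_zero
    exact Real.tendsto_log_atTop.comp h1
  have hwn : Tendsto (fun δ : ℝ => ‖(δ : ℂ) + γ * I‖) (𝓝[>] 0) (𝓝 |γ|) := by
    have h1 : Continuous (fun δ : ℝ => ‖(δ : ℂ) + γ * I‖) := by fun_prop
    have h2 := (h1.tendsto 0).mono_left (nhdsWithin_le_nhds (s := Ioi (0 : ℝ)))
    simpa using h2
  set D1 : ℝ := |Real.log CG| + |c| with hD1
  set D2 : ℝ := κ + C1 + 2 * B + κ * (1 / |γ|) with hD2
  have hlim : Tendsto (fun δ : ℝ => (m : ℝ) - D1 / Real.log (1 / δ)) (𝓝[>] 0) (𝓝 ((m : ℝ) - 0)) :=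
    tendsto_const_nhds.sub (hL.const_div_atTop D1)
  have hlim2 : Tendsto (fun δ : ℝ => ‖(δ : ℂ) + γ * I‖ * (κ + D2 / Real.log (1 / δ))) (𝓝[>] 0)
      (𝓝 (|γ| * (κ + 0))) :=
    hwn.mul (tendsto_const_nhds.add (hL.const_div_atTop D2))
  have hfin : (m : ℝ) - 0 ≤ |γ| * (κ + 0) := by
    apply le_of_tendsto_of_tendsto hlim hlim2
    filter_upwards [main, hL.eventually_gt_atTop 0] with δ h1 h2
    have e1 : (m : ℝ) - D1 / Real.log (1 / δ) = (m * Real.log (1 / δ) - D1) / Real.log (1 / δ) := by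
      field_simp
    have e2 : ‖(δ : ℂ) + γ * I‖ * (κ + D2 / Real.log (1 / δ)) =
        ‖(δ : ℂ) + γ * I‖ * (κ * Real.log (1 / δ) + D2) / Real.log (1 / δ) := by
      field_simp
    rw [e1, e2]
    gcongr
  rw [sub_zero, add_zero, mul_comm] at hfin
  linarith

end Pool.Agent.Helper16.OM
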