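import Pool.Agent.Helper16.OM.Little

/-!
OM-9. The lower side of the oscillation, unless there is a real zero `β > 1` with `Re ρ ≤ β` for all zeros `ρ`.
-/

set_option autoImplicit false

namespace Pool.Agent.Helper16.OM

open Complex Filter Topology MeasureTheory Set
open Pool.Agent.Helper13.Bsd Pool.Agent.Helper7.GW Pool.Agent.Helper58.BSD Pool.Agent.Helper29.MS

section

variable {N : ℕ → ℕ} {bad : ℕ → Prop} [DecidablePred bad]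

theorem F_ne_zero_far (hN : NHyp N) (F : ℂ → ℂ) (hF : EulerB N bad F) (σ : ℝ) (hσ : 11 < σ) :
    F (σ : ℂ) ≠ 0 := by
  intro h0
  have h1 := euler_identity N bad hN.one_le hN.bd F hF ((σ - 1 : ℝ) : ℂ)
    (by rw [ofReal_re]; linarith)
  have e : (1 + ((σ - 1 : ℝ) : ℂ)) = (σ : ℂ) := by push_cast; ring
  rw [Gf, e, h0, zero_mul] at h1
  exact exp_ne_zero _ h1.symm

theorem top_real (hN : NHyp N) (F : ℂ → ℂ) (hFd : Differentiable ℂ F) (hF : EulerB N bad F) (β : ℝ)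
    (h0 : F (β : ℂ) = 0) : ∃ b : ℝ, β ≤ b ∧ F (b : ℂ) = 0 ∧ ∀ c : ℝ, b < c → F (c : ℂ) ≠ 0 := by
  have hβ : β ≤ 11 := by
    by_contra hcon
    exact F_ne_zero_far hN F hF β (not_le.mp hcon) h0
  have hc : IsCompact (Icc β 11 ∩ {c : ℝ | F (c : ℂ) = 0}) := by
    refine isCompact_Icc.inter_right (isClosed_eq ?_ continuous_const)
    exact hFd.continuous.comp continuous_ofReal
  obtain ⟨b, hb, hmax⟩ := hc.exists_isGreatest ⟨β, ⟨le_rfl, hβ⟩, h0⟩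
  refine ⟨b, hb.1.1, hb.2, fun c hc h1 => ?_⟩
  have hc11 : c ≤ 11 := by
    by_contra hcon
    exact F_ne_zero_far hN F hF c (not_le.mp hcon) h1
  have := hmax ⟨⟨hb.1.1.trans hc.le, hc11⟩, h1⟩
  linarith

end

section

variable (W : WeierstrassCurve ℤ) (N : ℕ → ℕ)
    (hNdef : ∀ p : ℕ, N p = 1 + ((Finset.range p ×ˢ Finset.range p).filter
      (fun q : ℕ × ℕ => (p : ℤ) ∣ ((q.2 : ℤ) ^ 2 + W.a₁ * (q.1 : ℤ) * (q.2 : ℤ) + W.a₃ * (q.2 : ℤ)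
        - ((q.1 : ℤ) ^ 3 + W.a₂ * (q.1 : ℤ) ^ 2 + W.a₄ * (q.1 : ℤ) + W.a₆)))).card)

include hNdef in
theorem low_of_real (hΔ : W.Δ ≠ 0) (F : ℂ → ℂ) (hFd : Differentiable ℂ F) (hF : EulerHyp W N F)
    (hNR : ∀ β : ℝ, 1 < β → F (β : ℂ) = 0 → ∃ ρ : ℂ, β < ρ.re ∧ F ρ = 0)
    (θ κ : ℝ) (β : ℝ) (hβ1 : 1 < β) (hβθ : 1 + θ ≤ β) (hβ0 : F (β : ℂ) = 0) :
    ∃ᶠ x : ℝ in atTop, hs W N F x ≤ -(κ * (x ^ θ / Real.log x)) := by
  have hN := nhyp W N hNdef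
  have hB : EulerB N (badW W) F := hF
  obtain ⟨b, hb, hb0, hbmax⟩ := top_real hN F hFd hB β hβ0
  obtain ⟨ρ, hρb, hρ0⟩ := hNR b (by linarith) hb0
  have hρ1 : ρ ≠ 1 := by
    rintro rfl
    rw [one_re] at hρb
    linarith
  have hn : 0 < ‖ρ - 1‖ := norm_pos_iff.mpr (sub_ne_zero.mpr hρ1)
  have hord : 1 ≤ analyticOrderNatAt F ρ := by
    rw [Nat.one_le_iff_ne_zero]
    intro h1
    have h2 := ord_ne_top_all hN F hFd hB ρ
    have h3 : analyticOrderAt F ρ = 0 := by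
      rw [← Nat.cast_analyticOrderNatAt h2, h1]
      rfl
    exact (hFd.analyticAt ρ).analyticOrderAt_eq_zero.mp h3 hρ0
  set κ0 : ℝ := 1 / (2 * ‖ρ - 1‖) with hκ0
  have hκ0pos : 0 < κ0 := by rw [hκ0]; positivity
  have hκ0lt : κ0 * ‖ρ - 1‖ < analyticOrderNatAt F ρ := by
    have e : κ0 * ‖ρ - 1‖ = 1 / 2 := by rw [hκ0]; field_simp
    rw [e]
    have : (1 : ℝ) ≤ analyticOrderNatAt F ρ := by exact_mod_cast hord
    linarith
  have h1 := (omega_sharp W N hNdef hΔ F hFd hF ρ (by linarith) hρ1 κ0 hκ0pos.le hκ0lt).2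
    (fun c _ hc => hbmax c (by linarith))
  have hθρ : 0 < ρ.re - 1 - θ := by linarith
  have h2 : ∀ᶠ x : ℝ in atTop, κ / κ0 ≤ x ^ (ρ.re - 1 - θ) :=
    (tendsto_rpow_atTop hθρ).eventually_ge_atTop _
  refine (h1.and_eventually (h2.and (eventually_gt_atTop 1))).mono ?_
  rintro x ⟨h3, h4, h5⟩
  refine h3.trans (neg_le_neg ?_)
  have hx0 : 0 < x := by linarith
  have hlog : 0 < Real.log x := Real.log_pos h5
  have e : x ^ (ρ.re - 1) = x ^ (ρ.re - 1 - θ) * x ^ θ := by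
    rw [← Real.rpow_add hx0]
    congr 1
    ring
  rw [← mul_div_assoc, ← mul_div_assoc]
  apply div_le_div_of_nonneg_right _ hlog.le
  rw [e, ← mul_assoc]
  apply mul_le_mul_of_nonneg_right _ (Real.rpow_nonneg hx0.le _)
  rw [div_le_iff₀ hκ0pos] at h4
  linarith

include hNdef in
/-- the two oscillation results together -/
theorem osc_main (hΔ : W.Δ ≠ 0) (F : ℂ → ℂ) (hFd : Differentiable ℂ F) (hF : EulerHyp W N F) :
    (∀ (R : ℝ) (Z : Finset ℂ), 0 < R → (∀ ρ ∈ Z, 1 ≤ ρ.re ∧ ρ.im ≠ 0 ∧ |ρ.im| ≤ R) →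
      ∀ K : ℝ, 0 ≤ K → 2 * R * K < ∑ ρ ∈ Z, (analyticOrderNatAt F ρ : ℝ) →
        (∃ᶠ x : ℝ in atTop, K / Real.log x ≤ hs W N F x) ∧
        ((∀ β : ℝ, 1 < β → F (β : ℂ) = 0 → ∃ ρ : ℂ, β < ρ.re ∧ F ρ = 0) →
          ∃ᶠ x : ℝ in atTop, hs W N F x ≤ -(K / Real.log x))) ∧
    (∀ ρ : ℂ, 1 < ρ.re → ∀ κ : ℝ, 0 ≤ κ → κ * ‖ρ - 1‖ < analyticOrderNatAt F ρ →
        (∃ᶠ x : ℝ in atTop, κ * (x ^ (ρ.re - 1) / Real.log x) ≤ hs W N F x) ∧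
        ((∀ β : ℝ, 1 < β → F (β : ℂ) = 0 → ∃ ρ : ℂ, β < ρ.re ∧ F ρ = 0) →
          ∃ᶠ x : ℝ in atTop, hs W N F x ≤ -(κ * (x ^ (ρ.re - 1) / Real.log x)))) := by
  constructor
  · intro R Z hR hZ K hK0 hK
    obtain ⟨h1, h2⟩ := osc_count W N hNdef hΔ F hFd hF R hR Z hZ K hK0 hK
    refine ⟨h1, fun hNR => ?_⟩
    by_cases h3 : ∀ β : ℝ, 1 < β → F (β : ℂ) ≠ 0
    · exact h2 h3
    · push Not at h3
      obtain ⟨β, hβ1, hβ0⟩ := h3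
      have h4 := low_of_real W N hNdef hΔ F hFd hF hNR 0 K β hβ1 (by linarith) hβ0
      refine h4.mono fun x hx => ?_
      rw [Real.rpow_zero, mul_one_div] at hx
      exact hx
  · intro ρ hρ κ hκ0 hκ
    have hρ1 : ρ ≠ 1 := by
      rintro rfl
      rw [one_re] at hρ
      linarith
    obtain ⟨h1, h2⟩ := omega_sharp W N hNdef hΔ F hFd hF ρ hρ.le hρ1 κ hκ0 hκ
    refine ⟨h1, fun hNR => ?_⟩
    by_cases h3 : ∀ β : ℝ, 1 < β → ρ.re ≤ β → F (β : ℂ) ≠ 0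
    · exact h2 h3
    · push Not at h3
      obtain ⟨β, hβ1, hβρ, hβ0⟩ := h3
      exact low_of_real W N hNdef hΔ F hFd hF hNR (ρ.re - 1) κ β hβ1 (by linarith) hβ0

end

end Pool.Agent.Helper16.OM
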