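import Pool.Agent.Helper16.OM.Fin
import Pool.Agent.Helper16.OM.Assem

/-!
OM-13. With the functional equation, `log x · hs x` is unbounded above, and unbounded below unless there is a rightmost
real zero `β > 1`.
-/

set_option autoImplicit false

namespace Pool.Agent.Helper16.OM

open Complex Filter Topology MeasureTheory Set
open Pool.Agent.Helper13.Bsd Pool.Agent.Helper7.GW Pool.Agent.Helper58.BSD Pool.Agent.Helper29.MS

section

variable (W : WeierstrassCurve ℤ) (N : ℕ → ℕ)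
    (hNdef : ∀ p : ℕ, N p = 1 + ((Finset.range p ×ˢ Finset.range p).filter
      (fun q : ℕ × ℕ => (p : ℤ) ∣ ((q.2 : ℤ) ^ 2 + W.a₁ * (q.1 : ℤ) * (q.2 : ℤ) + W.a₃ * (q.2 : ℤ)
        - ((q.1 : ℤ) ^ 3 + W.a₂ * (q.1 : ℤ) ^ 2 + W.a₄ * (q.1 : ℤ) + W.a₆)))).card)

include hNdef in
theorem fe_main (hΔ : W.Δ ≠ 0) (F : ℂ → ℂ) (hFd : Differentiable ℂ F) (hF : EulerHyp W N F)
    (hFE : ∃ (b c : ℕ → ℝ) (A e : ℝ) (L : ℂ → ℂ), 0 < A ∧ (e = 1 ∨ e = -1) ∧ Differentiable ℂ L ∧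
      (∀ s : ℂ, 0 < s.re → L s * ∏ p ∈ W.Δ.natAbs.primeFactors,
        (1 - (b p : ℂ) * (p : ℂ) ^ (-s) + (c p : ℂ) * (p : ℂ) ^ (1 - 2 * s)) = (A : ℂ) ^ s * Gamma s * F s) ∧
      ∀ s : ℂ, L (2 - s) = e * L s) (K : ℝ) :
    (∃ᶠ x : ℝ in atTop, K / Real.log x ≤ hs W N F x) ∧
    ((∀ β : ℝ, 1 < β → F (β : ℂ) = 0 → ∃ ρ : ℂ, β < ρ.re ∧ F ρ = 0) →
      ∃ᶠ x : ℝ in atTop, hs W N F x ≤ -(K / Real.log x)) := by
  obtain ⟨b, c, A, e, L, hA, he, hL, hLF, hfe⟩ := hFE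
  have key : ∀ ε : ℝ, (ε = 1 ∨ ε = -1) → (ε = 1 ∨ ∀ β : ℝ, 1 < β → F (β : ℂ) ≠ 0) → ∀ x1 : ℝ,
      (∀ x, x1 ≤ x → ε * hs W N F x ≤ |K| / Real.log x) → False := by
    intro ε hε hreal x1 hx1
    refine fe_false W N hNdef hΔ F hFd hF b c A hA e he L hL hLF hfe |K| (abs_nonneg K) ε hε hreal
      (Real.log (max x1 1)) ?_
    intro t ht
    have h3 : max x1 1 < Real.exp t := (Real.log_lt_iff_lt_exp (by positivity)).mp ht
    have h4 := hx1 _ ((le_max_left _ _).trans h3.le)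
    rw [Real.log_exp] at h4
    exact h4
  have hKle : ∀ x : ℝ, 1 < x → K / Real.log x ≤ |K| / Real.log x := fun x hx =>
    div_le_div_of_nonneg_right (le_abs_self K) (Real.log_pos hx).le
  constructor
  · intro hcon
    obtain ⟨x1, hx1⟩ := eventually_atTop.mp hcon
    refine key 1 (Or.inl rfl) (Or.inl rfl) (max x1 2) fun x hx => ?_
    have h1 := hx1 x ((le_max_left _ _).trans hx)
    have h2 := hKle x (by linarith [(le_max_right x1 2).trans hx])
    rw [not_le] at h1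
    linarith
  · intro hNR
    by_cases h3 : ∀ β : ℝ, 1 < β → F (β : ℂ) ≠ 0
    · intro hcon
      obtain ⟨x1, hx1⟩ := eventually_atTop.mp hcon
      refine key (-1) (Or.inr rfl) (Or.inr h3) (max x1 2) fun x hx => ?_
      have h1 := hx1 x ((le_max_left _ _).trans hx)
      have h2 := hKle x (by linarith [(le_max_right x1 2).trans hx])
      rw [not_le] at h1
      linarith
    · push Not at h3
      obtain ⟨β, hβ1, hβ0⟩ := h3
      have h4 := low_of_real W N hNdef hΔ F hFd hF hNR 0 K β hβ1 (by linarith) hβ0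
      refine h4.mono fun x hx => ?_
      rw [Real.rpow_zero, mul_one_div] at hx
      exact hx

end

end Pool.Agent.Helper16.OM
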