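import Pool.Agent.Helper16.OM.Low2

set_option autoImplicit false

namespace Pool.Agent.Helper16.OM

open Complex Filter Topology
open Pool.Agent.Helper13.Bsd Pool.Agent.Helper7.GW Pool.Agent.Helper58.BSD Pool.Agent.Helper29.MS

variable {N : ℕ → ℕ} {bad : ℕ → Prop} [DecidablePred bad]

theorem Rf_bdd (hN : NHyp N) : ∃ C : ℝ, 0 ≤ C ∧ ∀ w : ℂ, 0 ≤ w.re → ‖Rf N bad w‖ ≤ C := by
  have hs : Summable (fun p : Nat.Primes => 2000 * ((p : ℕ) : ℝ) ^ (-(147 / 100) : ℝ)) :=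
    (summable_primes_rpow (by norm_num)).mul_left _
  refine ⟨∑' p : Nat.Primes, 2000 * ((p : ℕ) : ℝ) ^ (-(147 / 100) : ℝ), tsum_nonneg fun p => by positivity,
    fun w hw => ?_⟩
  unfold Rf
  exact tsum_of_norm_bounded hs.hasSum fun p => rterm_bound hN p p.2 w (by linarith)

theorem Pr_bdd : ∃ C : ℝ, 0 ≤ C ∧ ∀ w : ℂ, 0 ≤ w.re →
    ‖∏ p ∈ smallP, if bad (p : ℕ) then (1 : ℂ) else 1 - zz N p w‖ ≤ C := by
  refine ⟨∏ p ∈ smallP, (2 + |alp N (p : ℕ)|), Finset.prod_nonneg fun p _ => by positivity, fun w hw => ?_⟩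
  rw [norm_prod]
  refine Finset.prod_le_prod (fun p _ => norm_nonneg _) fun p _ => ?_
  have h0 := abs_nonneg (alp N (p : ℕ))
  split_ifs
  · rw [norm_one]
    linarith
  · have hp2 : (2 : ℝ) ≤ ((p : ℕ) : ℝ) := by exact_mod_cast p.2.two_le
    have h1 : ‖((p : ℕ) : ℂ) ^ (-w)‖ ≤ 1 := norm_X_le_one p p.2 w hw
    have h2 : ‖zz N p w‖ ≤ |alp N (p : ℕ)| * 1 + 1 * 1 ^ 2 := by
      unfold zz
      refine (norm_sub_le _ _).trans (add_le_add ?_ ?_)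
      · rw [norm_mul, norm_real, Real.norm_eq_abs]
        exact mul_le_mul_of_nonneg_left h1 h0
      · rw [norm_mul, norm_real, Real.norm_eq_abs, norm_pow]
        have h3 : |((p : ℕ) : ℝ)⁻¹| ≤ 1 := by
          rw [abs_of_pos (by positivity)]
          exact inv_le_one_of_one_le₀ (by linarith)
        gcongr
    calc ‖1 - zz N p w‖ ≤ ‖(1 : ℂ)‖ + ‖zz N p w‖ := norm_sub_le _ _
      _ ≤ 2 + |alp N (p : ℕ)| := by rw [norm_one]; linarith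

theorem Rf_Pr_bdd (hN : NHyp N) : ∃ C : ℝ, 0 < C ∧ ∀ w : ℂ, 0 ≤ w.re →
    ‖Rf N bad w‖ ≤ C ∧ ‖∏ p ∈ smallP, if bad (p : ℕ) then (1 : ℂ) else 1 - zz N p w‖ ≤ C := by
  obtain ⟨C1, h1, h2⟩ := Rf_bdd (bad := bad) hN
  obtain ⟨C2, h3, h4⟩ := Pr_bdd (N := N) (bad := bad)
  exact ⟨C1 + C2 + 1, by linarith, fun w hw => ⟨(h2 w hw).trans (by linarith), (h4 w hw).trans (by linarith)⟩⟩

end Pool.Agent.Helper16.OM
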