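import Pool.Agent.Helper16.OM.Little

/-!
OM-10. Lower bound for `G` on the right half plane from a one sided bound of `v`.
-/

set_option autoImplicit false

namespace Pool.Agent.Helper16.OM

open Complex Filter Topology MeasureTheory Set
open Pool.Agent.Helper13.Bsd Pool.Agent.Helper7.GW Pool.Agent.Helper58.BSD Pool.Agent.Helper29.MS

section

variable {v : ℝ → ℝ} {G : ℂ → ℂ} {A a η : ℝ}

theorem norm_Lap_le_abs {f : ℝ → ℝ} (w : ℂ) :
    ‖Lap f w‖ ≤ ∫ t in Ioi (0 : ℝ), |f t| * Real.exp (-w.re * t) := by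
  unfold Lap
  refine (norm_integral_le_integral_norm _).trans (le_of_eq ?_)
  refine integral_congr_ae (Eventually.of_forall fun t => ?_)
  simp only
  rw [norm_mul, norm_real, Real.norm_eq_abs, norm_exp]
  congr 2
  simp

theorem lap_lower (hS : Setup v G A a η) (hG0 : G 0 ≠ 0) (hint : ∀ x, 0 < x → LapInt v x)
    (hid : ∀ w : ℂ, 0 < w.re → G w = cexp (-(w * Lap v w)))
    (ε : ℝ) (hε : ε = 1 ∨ ε = -1) (K : ℝ) (hK0 : 0 ≤ K) (t0 : ℝ)
    (h : ∀ t, t0 < t → ε * (v t - kap G) ≤ K * k1 t) :
    ∃ C : ℝ, 0 ≤ C ∧ ∀ w : ℂ, 0 < w.re → 1 ≤ ‖w‖ →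
      -(C * ‖w‖ * (1 + (Real.log ‖w‖ - Real.log w.re))) ≤ Real.log ‖G w‖ := by
  have hLm := hS.grow.meas
  obtain ⟨c, hc⟩ : ∃ c, c = kap G := ⟨_, rfl⟩
  rw [← hc] at h
  set g : ℝ → ℝ := fun t => K * (Real.exp (0 * t) * k1 t) with hg
  have hg1m : Measurable (fun t => Real.exp (0 * t) * k1 t) :=
    (by fun_prop : Measurable fun t : ℝ => Real.exp (0 * t)).mul measurable_k1
  have hgm : Measurable g := hg1m.const_mul K
  have hgi : ∀ x, 0 < x → LapInt g x := fun x hx => (LapInt_k1 hx).const_mul K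
  set u : ℝ → ℝ := fun t => v t - c with hu
  have hum : Measurable u := hLm.sub measurable_const
  have huint : ∀ x, 0 < x → LapInt u x := fun x hx => (hint x hx).sub (lapInt_const c hx)
  -- the function b
  set b : ℝ → ℝ := fun t => g t - ε * u t with hb
  have hbm : Measurable b := hgm.sub (hum.const_mul ε)
  have hbint : ∀ x, 0 < x → LapInt b x := fun x hx => (hgi x hx).sub ((huint x hx).const_mul ε)
  set ind : ℝ → ℝ := (Iic t0).indicator (fun t => |b t|) with hind
  have habs : ∀ f : ℝ → ℝ, ∀ x, LapInt f x → LapInt (fun t => |f t|) x := by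
    intro f x hf
    unfold LapInt at *
    refine hf.norm.congr ?_
    filter_upwards with t
    rw [norm_mul, Real.norm_eq_abs, Real.norm_eq_abs, Real.abs_exp]
  have habsb : ∀ x, 0 < x → LapInt (fun t => |b t|) x := fun x hx => habs b x (hbint x hx)
  have hindint : ∀ x, LapInt ind x := fun x =>
    (habsb 1 one_pos).indicator_Iic hbm.abs t0 x
  have hindnn : ∀ t, 0 ≤ ind t := fun t => indicator_nonneg (fun _ _ => abs_nonneg _) t
  set M := ∫ t in Ioi (0 : ℝ), ind t * Real.exp (-0 * t) with hM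
  have hM0 : 0 ≤ M :=
    setIntegral_nonneg measurableSet_Ioi fun t _ => mul_nonneg (hindnn t) (Real.exp_pos _).le
  have hindB : ∀ x, 0 < x → ∫ t in Ioi (0 : ℝ), ind t * Real.exp (-x * t) ≤ M := by
    intro x hx
    apply setIntegral_mono_on (hindint x) (hindint 0) measurableSet_Ioi
    intro t ht
    have ht' : 0 < t := ht
    apply mul_le_mul_of_nonneg_left _ (hindnn t)
    rw [Real.exp_le_exp]
    nlinarith
  have hlow : ∀ t, |b t| ≤ b t + 2 * ind t := by
    intro t
    by_cases ht : t ∈ Iic t0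
    · rw [hind, indicator_of_mem ht]
      have := neg_abs_le (b t)
      linarith
    · rw [hind, indicator_of_notMem ht]
      have h1 : t0 < t := by simpa using ht
      have h2 := h t h1
      have h3 : 0 ≤ b t := by
        simp only [hb, hg, hu, zero_mul, Real.exp_zero, one_mul]
        linarith
      rw [abs_of_nonneg h3]
      linarith
  -- real integrals
  set J : ℝ → ℝ := fun x => ∫ t in Ioi (0 : ℝ), v t * Real.exp (-x * t) with hJ
  have hux : ∀ x, 0 < x → ∫ t in Ioi (0 : ℝ), u t * Real.exp (-x * t) = J x - c / x := by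
    intro x hx
    have h1 : ∀ t, u t * Real.exp (-x * t) = v t * Real.exp (-x * t) - c * Real.exp (-x * t) := by
      intro t
      simp only [hu]
      ring
    simp_rw [h1]
    rw [integral_sub (hint x hx) (lapInt_const c hx), int_const c hx]
  have hbx : ∀ x, 0 < x → ∫ t in Ioi (0 : ℝ), b t * Real.exp (-x * t)
      = K * Real.log ((x - 0 + 1) / (x - 0)) - ε * (J x - c / x) := by
    intro x hx
    have h1 : ∀ t, b t * Real.exp (-x * t) = K * ((Real.exp (0 * t) * k1 t) * Real.exp (-x * t))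
        - ε * (u t * Real.exp (-x * t)) := by
      intro t
      simp only [hb, hg]
      ring
    simp_rw [h1]
    rw [integral_sub, integral_const_mul, integral_const_mul, Lap_k1_real 0 x hx, hux x hx]
    · exact Integrable.const_mul (LapInt_k1 hx) _
    · exact Integrable.const_mul (huint x hx) _
  have hnormGx : ∀ x : ℝ, 0 < x → ‖G (x : ℂ)‖ = Real.exp (-(x * J x)) := by
    intro x hx
    rw [hid (x : ℂ) (by rw [ofReal_re]; exact hx), norm_exp, neg_re, re_Lap_ofReal, ← ofReal_mul, ofReal_re]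
  obtain ⟨C1, hC10, ev3⟩ := log_norm_bound hS hG0
  -- the integral of `|b|`
  set Φ : ℝ → ℝ := fun x => ∫ t in Ioi (0 : ℝ), |b t| * Real.exp (-x * t) with hΦ
  have hΦanti : ∀ x y, 0 < x → x ≤ y → Φ y ≤ Φ x := by
    intro x y hx hxy
    apply setIntegral_mono_on (habsb y (hx.trans_le hxy)) (habsb x hx) measurableSet_Ioi
    intro t ht
    have ht' : 0 < t := ht
    apply mul_le_mul_of_nonneg_left _ (abs_nonneg _)
    rw [Real.exp_le_exp]
    nlinarith
  have hΦle : ∀ x, 0 < x → Φ x ≤ K * Real.log ((x - 0 + 1) / (x - 0)) - ε * (J x - c / x) + 2 * M := by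
    intro x hx
    rw [← hbx x hx]
    have h1 : Φ x ≤ ∫ t in Ioi (0 : ℝ), (b t * Real.exp (-x * t) + 2 * (ind t * Real.exp (-x * t))) := by
      have h0 : Integrable (fun t : ℝ => 2 * (ind t * Real.exp (-x * t)))
          (volume.restrict (Ioi 0)) := Integrable.const_mul (hindint x) _
      refine setIntegral_mono_on (habsb x hx) (Integrable.add (hbint x hx) h0) measurableSet_Ioi ?_
      intro t _
      have h2 := mul_le_mul_of_nonneg_right (hlow t) (Real.exp_pos (-x * t)).le
      linarith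
    have h2 : Integrable (fun t : ℝ => 2 * (ind t * Real.exp (-x * t)))
        (volume.restrict (Ioi 0)) := Integrable.const_mul (hindint x) _
    rw [integral_add (hbint x hx) h2, integral_const_mul] at h1
    have h3 := hindB x hx
    linarith
  obtain ⟨δ0, hδ0, hδ⟩ := (mem_nhdsGT_iff_exists_Ioo_subset).mp ev3
  have hδ0 : 0 < δ0 := hδ0
  set δ1 := δ0 / 2 with hδ1
  have hδ1pos : 0 < δ1 := by positivity
  have hΦ1 : 0 ≤ Φ δ1 :=
    setIntegral_nonneg measurableSet_Ioi fun t _ => mul_nonneg (abs_nonneg _) (Real.exp_pos _).le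
  have hlogq : ∀ x : ℝ, 0 < x → 0 ≤ Real.log ((x + 1) / x) := by
    intro x hx
    apply Real.log_nonneg
    rw [le_div_iff₀ hx]
    linarith
  have hΦall : ∀ x, 0 < x → Φ x ≤ K * Real.log ((x + 1) / x) + (C1 + 2 * M + Φ δ1) := by
    intro x hx
    by_cases hx1 : x < δ0
    · have h1 := hΦle x hx
      rw [sub_zero] at h1
      have h4 : |Real.log ‖G x‖ - Real.log ‖G 0‖| ≤ C1 * x := hδ ⟨hx, hx1⟩
      have e2 : |J x - c / x| ≤ C1 := by
        have e3 : J x - c / x = -(Real.log ‖G (x : ℂ)‖ - Real.log ‖G 0‖) / x := by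
          rw [hnormGx x hx, Real.log_exp, hc, kap]
          field_simp
          ring
        rw [e3, abs_div, abs_neg, abs_of_pos hx, div_le_iff₀ hx]
        exact h4
      have e3 : -(ε * (J x - c / x)) ≤ C1 := by
        rw [abs_le] at e2
        rcases hε with h' | h' <;> rw [h'] <;> linarith [e2.1, e2.2]
      linarith
    · push Not at hx1
      have h1 := hΦanti δ1 x hδ1pos (by linarith)
      have h2 := mul_nonneg hK0 (hlogq x hx)
      linarith
  set C2 := C1 + 2 * M + Φ δ1 with hC2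
  have hC20 : 0 ≤ C2 := by positivity
  refine ⟨2 * K + C2 + |c|, by positivity, fun w hw hw1 => ?_⟩
  set σ := w.re with hσ
  have hwne : w ≠ 0 := by
    rintro rfl
    simp at hσ
    linarith
  have hσw : σ ≤ ‖w‖ := re_le_norm w
  have hlog0 : 0 ≤ Real.log ‖w‖ := Real.log_nonneg hw1
  have hD : 0 ≤ Real.log ‖w‖ - Real.log σ := by
    have := Real.log_le_log hw hσw
    linarith
  have hq : Real.log ((σ + 1) / σ) ≤ 1 + (Real.log ‖w‖ - Real.log σ) := by
    rw [Real.log_div (by positivity) hw.ne']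
    have h1 : Real.log (σ + 1) ≤ Real.log (2 * ‖w‖) := by
      apply Real.log_le_log (by positivity)
      linarith
    rw [Real.log_mul (by norm_num) (by positivity)] at h1
    have h2 : Real.log 2 ≤ 1 := by
      have := Real.log_two_lt_d9
      linarith
    linarith
  -- the bound of the Laplace transform
  have hLu : Lap u w = Lap v w - c / w := by
    have e1 : Lap (fun _ : ℝ => c) w = c / w := by
      unfold Lap
      rw [integral_const_mul]
      have hre : (-w).re < 0 := by rw [neg_re]; linarith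
      have h10 := integral_exp_mul_complex_Ioi hre 0
      rw [h10, ofReal_zero, mul_zero, exp_zero, neg_div_neg_eq, mul_one_div]
    rw [hu, Lap_sub hLm measurable_const (hint _ hw) (lapInt_const c hw), e1]
  have hLb : Lap b w = Lap g w - ε * Lap u w := by
    have e3 : Lap (fun x => ε * u x) w = ε * Lap u w := Lap_const_mul u ε w
    rw [hb, Lap_sub hgm (hum.const_mul ε) (hgi _ hw) ((huint _ hw).const_mul ε), e3]
  have hε2 : (ε : ℂ) * ε = 1 := by
    rcases hε with h' | h' <;> rw [h'] <;> push_cast <;> ring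
  have hεn : ‖(ε : ℂ)‖ = 1 := by
    rcases hε with h' | h' <;> rw [h'] <;> simp
  have hv : Lap v w = ε * (Lap g w - Lap b w) + c / w := by
    have e1 : ε * (Lap g w - Lap b w) = Lap u w := by
      rw [hLb]
      linear_combination Lap u w * hε2
    rw [e1, hLu]
    ring
  have hgw : ‖Lap g w‖ ≤ K * Real.log ((σ + 1) / σ) := by
    refine (norm_Lap_le_abs w).trans (le_of_eq ?_)
    have e1 : ∀ t ∈ Ioi (0 : ℝ), |g t| * Real.exp (-w.re * t) = K * ((Real.exp (0 * t) * k1 t) * Real.exp (-w.re * t)) := by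
      intro t ht
      have ht' : 0 < t := ht
      have h2 : 0 ≤ k1 t := by
        unfold k1
        apply div_nonneg _ ht'.le
        have : Real.exp (-t) ≤ 1 := Real.exp_le_one_iff.mpr (by linarith)
        linarith
      simp only [hg]
      rw [abs_of_nonneg (mul_nonneg hK0 (mul_nonneg (Real.exp_pos _).le h2))]
      ring
    rw [setIntegral_congr_fun measurableSet_Ioi e1, integral_const_mul, Lap_k1_real 0 _ hw, sub_zero]
  have hbw : ‖Lap b w‖ ≤ K * Real.log ((σ + 1) / σ) + C2 := (norm_Lap_le_abs w).trans (hΦall σ hw)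
  have hcw : ‖(c : ℂ) / w‖ ≤ |c| := by
    rw [norm_div, norm_real, Real.norm_eq_abs]
    exact div_le_self (abs_nonneg c) hw1
  have hvw : ‖Lap v w‖ ≤ (2 * K + C2 + |c|) * (1 + (Real.log ‖w‖ - Real.log σ)) := by
    have h1 : ‖Lap v w‖ ≤ (K * Real.log ((σ + 1) / σ) + (K * Real.log ((σ + 1) / σ) + C2)) + |c| := by
      rw [hv]
      refine (norm_add_le _ _).trans (add_le_add ?_ hcw)
      rw [norm_mul, hεn, one_mul]
      exact (norm_sub_le _ _).trans (add_le_add hgw hbw)
    have h2 : K * Real.log ((σ + 1) / σ) ≤ K * (1 + (Real.log ‖w‖ - Real.log σ)) :=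
      mul_le_mul_of_nonneg_left hq hK0
    have h3 : 0 ≤ C2 * (Real.log ‖w‖ - Real.log σ) := mul_nonneg hC20 hD
    have h4 : 0 ≤ |c| * (Real.log ‖w‖ - Real.log σ) := mul_nonneg (abs_nonneg c) hD
    linarith
  rw [hid w hw, norm_exp, Real.log_exp, neg_re]
  have h1 : (w * Lap v w).re ≤ ‖w‖ * ‖Lap v w‖ := by
    rw [← norm_mul]
    exact re_le_norm _
  have h2 : ‖w‖ * ‖Lap v w‖ ≤ ‖w‖ * ((2 * K + C2 + |c|) * (1 + (Real.log ‖w‖ - Real.log σ))) :=
    mul_le_mul_of_nonneg_left hvw (norm_nonneg w)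
  linarith

end

end Pool.Agent.Helper16.OM
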