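import Pool.Agent.Helper16.OM.Low

/-!
OM-11. Lower bound for `GG` on the right half plane, from a one sided bound of `hs`.
-/

set_option autoImplicit false

namespace Pool.Agent.Helper16.OM

open Complex Filter Topology MeasureTheory Set
open Pool.Agent.Helper13.Bsd Pool.Agent.Helper7.GW Pool.Agent.Helper58.BSD Pool.Agent.Helper29.MS

section

variable {v : ℝ → ℝ} {G : ℂ → ℂ} {A a η : ℝ}

theorem line_lower (hS : Setup v G A a η) (r : ℕ) (g : ℝ) (hg0 : 0 < g)
    (hg : Tendsto (fun y : ℝ => ‖G (y : ℂ)‖ / y ^ r) (𝓝[>] 0) (𝓝 g))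
    (hint : ∀ x, 0 < x → LapInt v x)
    (ε : ℝ) (hε : ε = 1 ∨ ε = -1) (κ : ℝ) (hκ0 : 0 ≤ κ) (t0 : ℝ)
    (h : ∀ t, t0 < t → ε * (v t - r * Real.log t - (r * Real.eulerMascheroniConstant - Real.log g)) ≤ κ / t) :
    ∃ C : ℝ, 0 ≤ C ∧ ∀ w : ℂ, 0 < w.re → 1 ≤ ‖w‖ →
      -(C * ‖w‖ * (1 + (Real.log ‖w‖ - Real.log w.re))) ≤ Real.log ‖G w‖ := by
  obtain ⟨G1, hG1, hfac, hG10⟩ := factor_order hS r g hg0 hg
  have hS0 := setup_reduce hS r G1 hG1 hfac
  have hη := hS.hη
  have h0 : (fun s => G1 s * (1 + s) ^ r) (0 : ℂ) ≠ 0 := by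
    simp only [add_zero, one_pow, mul_one]
    rw [← norm_pos_iff, hG10]
    exact hg0
  have hkap : kap (fun s => G1 s * (1 + s) ^ r) = -Real.log g := by
    unfold kap
    simp only [add_zero, one_pow, mul_one]
    rw [hG10]
  have hint0 : ∀ x, 0 < x → LapInt (fun t => v t - r * ein t) x := fun x hx =>
    (hint x hx).sub ((lapInt_ein hx).const_mul _)
  have hid0 := identity_continue hS0 0 le_rfl hint0
  -- the comparison of the two functions
  have hlim : Tendsto (fun t : ℝ => (κ + 1) * (1 - Real.exp (-t)) - r * (t * Real.exp (-t))) atTop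
      (𝓝 ((κ + 1) * (1 - 0) - r * 0)) := by
    have e1 : Tendsto (fun t : ℝ => Real.exp (-t)) atTop (𝓝 0) :=
      Real.tendsto_exp_atBot.comp tendsto_neg_atTop_atBot
    have e2 : Tendsto (fun t : ℝ => t * Real.exp (-t)) atTop (𝓝 0) := by
      have := Real.tendsto_pow_mul_exp_neg_atTop_nhds_zero 1
      simpa using this
    exact ((e1.const_sub 1).const_mul (κ + 1)).sub (e2.const_mul _)
  have hev : ∀ᶠ t : ℝ in atTop, κ < (κ + 1) * (1 - Real.exp (-t)) - r * (t * Real.exp (-t)) :=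
    hlim.eventually (lt_mem_nhds (by linarith))
  obtain ⟨t2, ht2⟩ := eventually_atTop.mp hev
  obtain ⟨C, hC0, hC⟩ := lap_lower hS0 h0 hint0 hid0 ε hε (κ + 1) (by linarith) (max t0 (max t2 1)) (by
    intro t ht
    have h1 : t0 < t := (le_max_left _ _).trans_lt ht
    have h2 : t2 < t := ((le_max_left _ _).trans (le_max_right _ _)).trans_lt ht
    have h3 : 1 < t := ((le_max_right _ _).trans (le_max_right _ _)).trans_lt ht
    have ht0 : 0 < t := by linarith
    have h4 := ht2 t h2.le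
    have h5 := h t h1
    obtain ⟨h6, h7⟩ := EinL2_bounds h3.le
    rw [hkap]
    have e : ε * (v t - r * ein t - -Real.log g) =
        ε * (v t - r * Real.log t - (r * Real.eulerMascheroniConstant - Real.log g)) -
          ε * (r * (ein t - Real.log t - Real.eulerMascheroniConstant)) := by ring
    have hr0 : (0 : ℝ) ≤ r := Nat.cast_nonneg r
    have h8 : -(ε * (r * (ein t - Real.log t - Real.eulerMascheroniConstant))) ≤ r * Real.exp (-t) := by
      have e1 : r * (ein t - Real.log t - Real.eulerMascheroniConstant) ≤ r * Real.exp (-t) :=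
        mul_le_mul_of_nonneg_left h7 hr0
      have e2 : 0 ≤ r * (ein t - Real.log t - Real.eulerMascheroniConstant) := mul_nonneg hr0 h6
      rcases hε with h' | h' <;> rw [h'] <;> linarith
    have h9 : (κ + 1) * k1 t = ((κ + 1) * (1 - Real.exp (-t))) / t := by
      rw [k1]; ring
    show ε * (v t - r * ein t - -Real.log g) ≤ (κ + 1) * k1 t
    rw [e, h9]
    have h10 : κ / t + r * Real.exp (-t) ≤ ((κ + 1) * (1 - Real.exp (-t))) / t := by
      rw [le_div_iff₀ ht0, add_mul, div_mul_cancel₀ _ ht0.ne']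
      nlinarith
    linarith)
  refine ⟨C + r, by positivity, fun w hw hw1 => ?_⟩
  have hwpos : 0 < ‖w‖ := by linarith
  have h1 := hC w hw hw1
  have hne : G1 w * (1 + w) ^ r ≠ 0 := by
    intro h2
    have h3 := hid0 w hw
    rw [h2] at h3
    exact exp_ne_zero _ h3.symm
  have hG1ne : G1 w ≠ 0 := left_ne_zero_of_mul hne
  have h1w : (1 + w) ≠ 0 := by
    intro h2
    have := congrArg Complex.re h2
    simp at this
    linarith
  have hwr : w.re ≤ ‖w‖ := re_le_norm w
  have hD : 0 ≤ Real.log ‖w‖ - Real.log w.re := by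
    have := Real.log_le_log hw hwr
    linarith
  have h1wn : 0 < ‖1 + w‖ := norm_pos_iff.mpr h1w
  rw [norm_mul, norm_pow, Real.log_mul (norm_pos_iff.mpr hG1ne).ne' (pow_pos h1wn r).ne', Real.log_pow] at h1
  rw [hfac w (by linarith), norm_mul, norm_pow,
    Real.log_mul (pow_pos hwpos r).ne' (norm_pos_iff.mpr hG1ne).ne', Real.log_pow]
  have h2 : Real.log ‖1 + w‖ ≤ 1 + Real.log ‖w‖ := by
    have h3 : ‖1 + w‖ ≤ 2 * ‖w‖ := by
      refine (norm_add_le _ _).trans ?_
      rw [norm_one]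
      linarith
    have h4 := Real.log_le_log h1wn h3
    rw [Real.log_mul (by norm_num) hwpos.ne'] at h4
    have := Real.log_two_lt_d9
    linarith
  have hr0 : (0 : ℝ) ≤ r := Nat.cast_nonneg r
  have h3 : (r : ℝ) * Real.log ‖1 + w‖ ≤ r * (1 + Real.log ‖w‖) := mul_le_mul_of_nonneg_left h2 hr0
  have h4 : (r : ℝ) ≤ r * ‖w‖ * (1 + (Real.log ‖w‖ - Real.log w.re)) := by
    have h5 : (1 : ℝ) ≤ ‖w‖ * (1 + (Real.log ‖w‖ - Real.log w.re)) := by nlinarith
    calc (r : ℝ) = r * 1 := by ring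
      _ ≤ r * (‖w‖ * (1 + (Real.log ‖w‖ - Real.log w.re))) := mul_le_mul_of_nonneg_left h5 hr0
      _ = _ := by ring
  have h5 : (C + r) * ‖w‖ * (1 + (Real.log ‖w‖ - Real.log w.re)) =
      C * ‖w‖ * (1 + (Real.log ‖w‖ - Real.log w.re)) + r * ‖w‖ * (1 + (Real.log ‖w‖ - Real.log w.re)) := by ring
  rw [h5]
  linarith

end

section

variable (W : WeierstrassCurve ℤ) (N : ℕ → ℕ)
    (hNdef : ∀ p : ℕ, N p = 1 + ((Finset.range p ×ˢ Finset.range p).filter
      (fun q : ℕ × ℕ => (p : ℤ) ∣ ((q.2 : ℤ) ^ 2 + W.a₁ * (q.1 : ℤ) * (q.2 : ℤ) + W.a₃ * (q.2 : ℤ)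
        - ((q.1 : ℤ) ^ 3 + W.a₂ * (q.1 : ℤ) ^ 2 + W.a₄ * (q.1 : ℤ) + W.a₆)))).card)

include hNdef in
/-- consequences of a one sided bound: count of zeros, no zeros to the right, lower bound for `GG` -/
theorem bsd_lower (hΔ : W.Δ ≠ 0) (F : ℂ → ℂ) (hFd : Differentiable ℂ F) (hF : EulerHyp W N F)
    (κ : ℝ) (hκ0 : 0 ≤ κ)
    (ε : ℝ) (hε : ε = 1 ∨ ε = -1) (hreal : ε = 1 ∨ ∀ σ : ℝ, 1 < σ → F (σ : ℂ) ≠ 0) (t0 : ℝ)
    (h : ∀ t, t0 < t → ε * hs W N F (Real.exp t) ≤ κ / t) :
    (∀ w : ℂ, 0 < w.re → F (1 + w) ≠ 0) ∧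
    ∃ C : ℝ, 0 ≤ C ∧ ∀ w : ℂ, 0 < w.re → 1 ≤ ‖w‖ →
      -(C * ‖w‖ * (1 + (Real.log ‖w‖ - Real.log w.re))) ≤ Real.log ‖GG N (badW W) F w‖ := by
  classical
  have hN := nhyp W N hNdef
  have hB : EulerB N (badW W) F := hF
  set r : ℕ := analyticOrderNatAt F 1 with hr
  obtain ⟨K, T, hK, hT, hLL⟩ := LL_upper W N hNdef hΔ F hFd hF
  -- the Laplace transform converges
  have hLint : ∀ x, 0 < x → LapInt (LL N (badW W)) x := by
    apply lapInt_continue N (badW W) F hFd (hN_of W N hNdef) (ap_bound W N hNdef) hF 0 le_rfl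
      (fun t => (κ + K) * (1 + t)) (by fun_prop) (fun x hx => lapInt_lin (κ + K) hx) ε hε (max t0 T)
    · intro t ht
      have h1 : t0 < t := (le_max_left _ _).trans_lt ht
      have h2 : T < t := (le_max_right _ _).trans_lt ht
      have h3 := hLL ε hε t h2.le
      have h4 := h t h1
      have ht1 : 1 ≤ t := by linarith
      have h5 : κ / t ≤ κ := div_le_self hκ0 ht1
      have h6 : (κ + K) * (1 + t) = κ + κ * t + K * (1 + t) := by ring
      have h7 : 0 ≤ κ * t := by positivity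
      show 0 ≤ (κ + K) * (1 + t) - ε * LL N (badW W) t
      rw [h6]
      linarith
    · rcases hreal with h' | h'
      · exact Or.inl h'
      · right
        intro x hx
        apply Gf_ne_zero_of W N hNdef F hx.le
        have := h' (1 + x) (by linarith)
        push_cast at this
        exact this
  obtain ⟨Ce, hCe, hCe2⟩ := ee_bdd (bad := badW W) hN
  have hint : ∀ x, 0 < x → LapInt (fun t => LL N (badW W) t - ee N (badW W) t) x := fun x hx =>
    (hLint x hx).sub (lapInt_bdd measurable_ee hCe2 hx)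
  obtain ⟨A, hS⟩ := bsd_setup hN F hFd hB
  obtain ⟨hg0, hg⟩ := GG_lead hN F hFd hB
  rw [← hr] at hg0 hg
  -- no zeros to the right of the line
  have hid := identity_continue hS 0 le_rfl hint
  constructor
  · intro w hw h4
    have h1 := hid w hw
    have h2 : GG N (badW W) F w ≠ 0 := by
      rw [h1]
      exact exp_ne_zero _
    apply h2
    unfold GG Gf
    rw [h4]
    simp
  -- the comparison
  obtain ⟨Kr, Tr, hKr, hTr, hrate⟩ := ee_rate2 (bad := badW W) hN (finite_bad W hΔ)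
  have hlim : Tendsto (fun t : ℝ => (κ + 1) - Kr * (t * Real.exp (-(47 / 200 * t)))) atTop
      (𝓝 ((κ + 1) - Kr * 0)) := by
    have e1 : Tendsto (fun t : ℝ => t * Real.exp (-(47 / 200 * t))) atTop (𝓝 0) := by
      have h1 := (Real.tendsto_pow_mul_exp_neg_atTop_nhds_zero 1).comp
        (tendsto_id.const_mul_atTop (show (0 : ℝ) < 47 / 200 by norm_num))
      have h2 := h1.const_mul (200 / 47)
      rw [mul_zero] at h2
      refine h2.congr fun t => ?_
      simp only [Function.comp, id, pow_one]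
      ring
    exact (e1.const_mul Kr).const_sub (κ + 1)
  have hev : ∀ᶠ t : ℝ in atTop, κ < (κ + 1) - Kr * (t * Real.exp (-(47 / 200 * t))) :=
    hlim.eventually (lt_mem_nhds (by linarith))
  obtain ⟨t2, ht2⟩ := eventually_atTop.mp hev
  refine line_lower hS r _ hg0 hg hint ε hε (κ + 1) (by linarith) (max t0 (max t2 Tr)) ?_
  intro t ht
  have h1 : t0 < t := (le_max_left _ _).trans_lt ht
  have h2 : t2 < t := ((le_max_left _ _).trans (le_max_right _ _)).trans_lt ht
  have h3 : Tr < t := ((le_max_right _ _).trans (le_max_right _ _)).trans_lt ht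
  have ht0 : 0 < t := by linarith
  have h4 := ht2 t h2.le
  have h5 := h t h1
  have h6 := hrate t h3.le
  have h7 := hs_exp W N hNdef hΔ F hFd hF t ht0
  rw [log_kon W N hNdef hΔ F hFd hF, ← hr] at h7
  set g : ℝ := ‖iteratedDeriv r F 1‖ / (r.factorial : ℝ) * Real.exp (E0 N (badW W)) with hgdef
  have e : ε * (LL N (badW W) t - ee N (badW W) t - r * Real.log t
      - (r * Real.eulerMascheroniConstant - Real.log g)) =
      ε * hs W N F (Real.exp t) - ε * (ee N (badW W) t + TTb N (badW W) (Real.exp t) - E0 N (badW W)) := by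
    rw [h7]
    ring
  rw [e]
  have h8 : -(ε * (ee N (badW W) t + TTb N (badW W) (Real.exp t) - E0 N (badW W))) ≤
      Kr * Real.exp (-(47 / 200 * t)) := by
    rw [abs_le] at h6
    rcases hε with h' | h' <;> rw [h'] <;> linarith [h6.1, h6.2]
  have h9 : κ / t + Kr * Real.exp (-(47 / 200 * t)) ≤ (κ + 1) / t := by
    rw [le_div_iff₀ ht0, add_mul, div_mul_cancel₀ _ ht0.ne']
    nlinarith
  linarith

end

end Pool.Agent.Helper16.OM
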